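import Pool.Agent.Lib.MP_b7b517_ag.Sc.Defs
import Pool.Agent.Lib.MP_d3d358_ag.Mv.Mov
import Pool.Agent.Lib.MP_d3d358_ag.Mv.PP
import Pool.Agent.Lib.MP_d3d358_ag.Cw.Cls

/-! A line with an affine coordinate, coordinates in residue fields. -/

set_option autoImplicit false

namespace Pool.Agent.Lib.MP_b7b517_ag.Sc

open CategoryTheory AlgebraicGeometry Set
open Pool.Agent.Lib.MP_d3d358_ag.Cw Pool.Agent.Lib.MP_d3d358_ag.Mv

noncomputable section

/-- a smooth projective curve containing the affine line -/
structure Ln (P : Sch) where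
  ok : Ok P
  mf : Mf P 1
  U : P.left.Opens
  aff : IsAffineOpen U
  x : Γ(P.left, U)
  bij : Function.Bijective (Polynomial.aeval x : Polynomial ℂ →ₐ[ℂ] Γ(P.left, U))

variable {P V Y : Sch} {σ : Type}

/-- the map of residue fields -/
def rf (f : V ⟶ Y) (v : V.left) : Kp (f.left v) →ₐ[ℂ] Kp v :=
  { (f.left.residueFieldMap v).hom with
    commutes' := fun c => by
      have e := evA_map f (U := ⊤) (T := ⊤) le_top (v := v) trivial (algebraMap ℂ _ c)
      rw [PP_alg, AlgHom.commutes, AlgHom.commutes] at e
      exact e.symm }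

open Classical in
/-- the affine coordinate of the image of `y`, in the residue field of `y` -/
def Ln.crd (L : Ln P) (π : Y ⟶ P) (y : Y.left) : Kp y :=
  if h : π.left y ∈ L.U then rf π y (evA L.U _ h L.x) else 0

/-- the residue fields of the points of the big cell are generated by the coordinates -/
def Ln.Gen (L : Ln P) (π : σ → (Y ⟶ P)) : Prop := ∀ y : Y.left, (∀ i, (π i).left y ∈ L.U) →
  IntermediateField.adjoin ℂ (range fun i => L.crd (π i) y) = ⊤

/-- `γ` is the class of a cycle -/
def Alg (W : Sch) (γ : HW W) : Prop := ∃ c, Rep c γ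

end

end Pool.Agent.Lib.MP_b7b517_ag.Sc
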