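import Pool.Agent.Lib.MP_b7b517_ag.Sc.Base

/-! Exterior products of points and of cycles. -/

set_option autoImplicit false

namespace Pool.Agent.Lib.MP_b7b517_ag.Sc

open CategoryTheory Limits AlgebraicGeometry MonoidalCategory Set
open Pool.Agent.Lib.MP_d3d358_ag.Cw Pool.Agent.Lib.MP_d3d358_ag.Mv Pool.Agent.Lib.MP_d3d358_ag.AS

variable {V W F : Sch} {f : V ⟶ W} {g : V ⟶ F}

theorem box_range {Z : Sch} (ι : Z ⟶ W) [IsIntegral Z.left] [IsClosedImmersion ι.left]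
    (u : W.left) : u ∈ range ι.left ↔ ι.left (genericPoint Z.left) ⤳ u :=
  ⟨fun ⟨z, e⟩ => e ▸ (div_gen z).map ι.left.continuous,
    fun h => h.mem_closed ι.left.isClosedEmbedding.isClosed_range ⟨_, rfl⟩⟩

theorem box_spec (h : Sq f g) [Gd W] [Gd F] (w : W.left) (w' : F.left) : ∃ v : V.left,
    ∀ u, v ⤳ u ↔ w ⤳ f.left u ∧ w' ⤳ g.left u := by
  obtain ⟨Z, ι, _, _, rfl⟩ := exists_sub w
  obtain ⟨Z', ι', _, _, rfl⟩ := exists_sub w'
  have := gd_closed ι
  have := gd_closed ι'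
  have : IsIntegral (pullback Z.hom Z'.hom) := (sq_prod Z Z').integral
  let m := pullback.map Z.hom Z'.hom W.hom F.hom ι.left ι'.left (𝟙 _)
    (by rw [Category.comp_id, Over.w]) (by rw [Category.comp_id, Over.w])
  have key : ∀ u, u ∈ range (m ≫ h.isoPullback.inv) ↔
      ι.left (genericPoint Z.left) ⤳ f.left u ∧ ι'.left (genericPoint Z'.left) ⤳ g.left u := by
    intro u
    obtain ⟨u, rfl⟩ := h.isoPullback.inv.surjective u
    rw [← box_range, ← box_range, ← Scheme.Hom.comp_apply, ← Scheme.Hom.comp_apply,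
      h.isoPullback_inv_fst, h.isoPullback_inv_snd]
    refine Iff.trans ⟨fun ⟨z, e⟩ => ⟨z, h.isoPullback.inv.isOpenEmbedding.injective e⟩,
      fun ⟨z, e⟩ => ⟨z, congrArg h.isoPullback.inv e⟩⟩ (?_ : u ∈ range m ↔ _)
    rw [Scheme.Pullback.range_map]
    rfl
  refine ⟨(m ≫ h.isoPullback.inv) (genericPoint _), fun u => ⟨fun s => ?_, fun s => ?_⟩⟩
  · have := (key _).1 ⟨genericPoint _, rfl⟩
    exact ⟨this.1.trans (s.map f.left.continuous), this.2.trans (s.map g.left.continuous)⟩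
  · obtain ⟨z, rfl⟩ := (key u).2 s
    exact (genericPoint_specializes z).map (m ≫ h.isoPullback.inv).continuous

theorem box_pt (h : Sq f g) [Gd V] [Gd W] [Gd F] (w : W.left) (w' : F.left) : ∃ v : V.left,
    (∀ u, v ⤳ u ↔ w ⤳ f.left u ∧ w' ⤳ g.left u) ∧ f.left v = w ∧ g.left v = w' ∧
      dm v = dm w + dm w' ∧ ∀ i j, ∀ x ∈ Hd W i, ∀ y ∈ Hd F j,
        Phi v (pb f x * pb g y) = Phi w x * Phi w' y := by
  obtain ⟨v, hv⟩ := box_spec h w w'
  have e : Kw v = Pnt.map f ⁻¹' Kw w ∩ Pnt.map g ⁻¹' Kw w' := Set.ext fun p => hv p.pt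
  obtain ⟨u, u1, u2⟩ := Scheme.exists_preimage_of_isPullback h w w'
    (Subsingleton.elim (α := PrimeSpectrum ℂ) _ _)
  have s := (hv u).2 ⟨u1 ▸ specializes_rfl, u2 ▸ specializes_rfl⟩
  have s' := (hv v).1 specializes_rfl
  refine ⟨v, hv, ((u1 ▸ s.map f.left.continuous : f.left v ⤳ w).antisymm s'.1).eq,
    ((u2 ▸ s.map g.left.continuous : g.left v ⤳ w').antisymm s'.2).eq, ?_,
    fun i j x hx y hy => ?_⟩
  · obtain ⟨p₁, y₁, h₁⟩ := pul_chart (fund w) (pul_nonempty w)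
    obtain ⟨p₂, y₂, h₂⟩ := pul_chart (fund w') (pul_nonempty w')
    obtain ⟨p, hp⟩ := h.bij.2 (p₁, p₂)
    obtain ⟨rfl, rfl⟩ := Prod.mk.inj hp
    exact ((fund v).size (e ▸ h.at h₁ h₂)).symm
  · have m1 : MapsTo (Pnt.map f) (Kw v) (Kw w) := fun p hp => (e.le hp).1
    have m2 : MapsTo (Pnt.map g) (Kw v) (Kw w') := fun p hp => (e.le hp).2
    have hx' : res (subset_univ (Kw w)) x ∈ Hk (Kw w) i := pull_mem hx
    have hy' : res (subset_univ (Kw w')) y ∈ Hk (Kw w') j := pull_mem hy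
    have key : phi v (pull (Pnt.map f) (Pnt.cont f).continuousOn m1 (res (subset_univ _) x) *
        pull (Pnt.map g) (Pnt.cont g).continuousOn m2 (res (subset_univ _) y)) =
        phi w (res (subset_univ _) x) * phi w' (res (subset_univ _) y) :=
      pul_top (fund v) (fund w) (fund w') (pul_nonempty w) (pul_nonempty w') h.homeo e
        (fun p y y' h1 h2 => by rw [e]; exact h.at h1 h2) _ m1 _ m2 hx' hy'
    rw [← pul_res (Pnt.cont f), ← pul_res (Pnt.cont g), ← map_mul] at key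
    exact key

theorem box_cyc (h : Sq f g) [Gd V] [Gd W] [Gd F] {k l : ℕ} {a : Cyc W.left} {b : Cyc F.left}
    (ha : Eff k a) (hb : Eff l b) : ∃ c : Cyc V.left, Eff (k + l) c ∧
      (∀ i j, ∀ x ∈ Hd W i, ∀ y ∈ Hd F j, ev c (pb f x * pb g y) = ev a x * ev b y) ∧
      ∀ u w w', a w ≠ 0 → b w' ≠ 0 → w ⤳ f.left u → w' ⤳ g.left u → ∃ v, c v ≠ 0 ∧ v ⤳ u := by
  classical
  choose σ s1 s2 s3 s4 s5 using box_pt h
  let S := (supp_fin a).toFinset ×ˢ (supp_fin b).toFinset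
  have inj : Function.Injective fun t : W.left × F.left => σ t.1 t.2 := fun t t' e =>
    Prod.ext ((s2 _ _).symm.trans ((congrArg f.left e).trans (s2 _ _)))
      ((s3 _ _).symm.trans ((congrArg g.left e).trans (s3 _ _)))
  have sub : ∀ v, (if v = σ (f.left v) (g.left v) then a (f.left v) * b (g.left v) else 0) ≠ 0 →
      v ∈ S.image (fun t => σ t.1 t.2) ∧ v = σ (f.left v) (g.left v) ∧ a (f.left v) ≠ 0 ∧
        b (g.left v) ≠ 0 := fun v hv => by
    have e : v = σ (f.left v) (g.left v) := by_contra fun e => hv (if_neg e)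
    rw [if_pos e, mul_ne_zero_iff] at hv
    exact ⟨Finset.mem_image.2 ⟨(f.left v, g.left v), by simpa [S] using hv, e.symm⟩, e, hv⟩
  obtain ⟨c, hc⟩ := cyc_of
    (fun v => if v = σ (f.left v) (g.left v) then a (f.left v) * b (g.left v) else 0)
    ((Finset.finite_toSet _).subset fun v hv => (sub v hv).1)
  have val : ∀ w w', c (σ w w') = a w * b w' := fun w w' => by rw [hc, s2, s3, if_pos rfl]
  refine ⟨c, fun v hv => ?_, fun i j x hx y hy => ?_, fun u w w' h1 h2 h3 h4 =>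
    ⟨σ w w', val w w' ▸ mul_ne_zero h1 h2, (s1 w w' u).2 ⟨h3, h4⟩⟩⟩
  · obtain ⟨-, e, h1, h2⟩ := sub v (hc v ▸ hv)
    obtain ⟨d1, m, e1⟩ := ha _ h1
    obtain ⟨d2, n, e2⟩ := hb _ h2
    rw [height_eq, Nat.cast_inj] at d1 d2
    refine ⟨?_, m * n, ?_⟩
    · rw [height_eq, e, s4, d1, d2]
    · rw [hc, if_pos e, e1, e2, Nat.cast_mul]
  · rw [ev_apply, ev_apply, ev_apply,
      finsum_eq_sum_of_support_subset (s := S.image fun t => σ t.1 t.2) _ fun v hv =>
        (sub v (hc v ▸ left_ne_zero_of_mul hv)).1,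
      finsum_eq_sum_of_support_subset (s := (supp_fin a).toFinset) _ fun w hw => by
        simpa using left_ne_zero_of_mul hw,
      finsum_eq_sum_of_support_subset (s := (supp_fin b).toFinset) _ fun w hw => by
        simpa using left_ne_zero_of_mul hw,
      Finset.sum_image fun _ _ _ _ e => inj e, Finset.sum_mul_sum, Finset.sum_product]
    refine Finset.sum_congr rfl fun w _ => Finset.sum_congr rfl fun w' _ => ?_
    rw [val, s5 w w' i j x hx y hy]
    ring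

theorem box_ext (h : Sq f g) [Gd V] [Gd W] [Gd F] {φ ψ : HW V →ₗ[ℚ] ℚ}
    (e : ∀ i j, ∀ x ∈ Hd W i, ∀ y ∈ Hd F j, φ (pb f x * pb g y) = ψ (pb f x * pb g y)) :
    ∀ k, ∀ u ∈ Hd V k, φ u = ψ u := fun k _ hu =>
  LinearMap.eqOn_span (by
    rintro _ ⟨i, j, -, x, hx, y, hy, rfl⟩
    exact e i j x hx y hy) (h.span k hu)

end Pool.Agent.Lib.MP_b7b517_ag.Sc
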