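import Pool.Agent.Lib.MP_b7b517_ag.Poly

/-! Counting general points, growth of the count. -/

set_option autoImplicit false

namespace Pool.Agent.Lib.MP_b7b517_ag.Sc

open Module MvPolynomial Filter
open scoped ENNReal

/-- general points impose independent conditions -/
theorem gen_sub {σ ι τ : Type} (M : Submodule ℂ (MvPolynomial σ ℂ)) [Module.Finite ℂ M]
    (T : Finset ι) (π : σ → τ) (hπ : Function.Injective π) (h : finrank ℂ M ≤ T.card) :
    ∀ᶠ v in gen (ι × τ), ∀ f : MvPolynomial σ ℂ, f ∈ M →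
      (∀ j ∈ T, eval (fun i => v (j, π i)) f = 0) → f = 0 := by
  classical
  let N := finrank ℂ M
  let B := Module.finBasis ℂ M
  obtain ⟨e, he1, he2⟩ : ∃ e : Fin N → ι, Function.Injective e ∧ ∀ k, e k ∈ T := by
    obtain ⟨e⟩ : Nonempty (Fin N ↪ T) :=
      Function.Embedding.nonempty_of_card_le (by simpa [N] using h)
    exact ⟨fun k => e k, Subtype.val_injective.comp e.injective, fun k => (e k).2⟩
  let ev : (σ → ℂ) → Fin N → ℂ := fun w l => eval w (B l).1
  have hsp : Submodule.span ℂ (Set.range ev) = ⊤ := by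
    by_contra h1
    obtain ⟨φ, h2, h3⟩ := Submodule.exists_le_ker_of_lt_top _ (lt_top_iff_ne_top.2 h1)
    have h4 : ∑ l, φ (Pi.single l 1) • B l = 0 := by
      refine Subtype.ext (MvPolynomial.funext fun w => ?_)
      have h5 : φ (ev w) = 0 := h3 (Submodule.subset_span ⟨w, rfl⟩)
      rw [LinearMap.pi_apply_eq_sum_univ] at h5
      simp only [AddSubmonoidClass.coe_finsetSum, SetLike.val_smul, map_sum, smul_eval,
        ZeroMemClass.coe_zero, map_zero]
      rw [← h5]
      refine Finset.sum_congr rfl fun l _ => ?_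
      rw [smul_eq_mul, mul_comm]
      congr 2
      funext j
      simp [Pi.single_apply, eq_comm]
    have h5 := Fintype.linearIndependent_iff.1 B.linearIndependent _ h4
    exact h2 (LinearMap.pi_ext' fun l => LinearMap.ext_ring (by simpa using h5 l))
  obtain ⟨w, hw1, -, hw3⟩ := Submodule.exists_fun_fin_finrank_span_eq ℂ (Set.range ev)
  have hN : finrank ℂ (Submodule.span ℂ (Set.range ev)) = N := by rw [hsp]; simp
  choose p hp using hw1
  have hdet : (Matrix.of fun k l => ev (p (Fin.cast hN.symm k)) l).det ≠ 0 := by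
    have : LinearIndependent ℂ (Matrix.of fun k l => ev (p (Fin.cast hN.symm k)) l).row := by
      have h1 := hw3.comp (Fin.cast hN.symm) (Fin.cast_injective _)
      have h2 : (Matrix.of fun k l => ev (p (Fin.cast hN.symm k)) l).row =
          w ∘ Fin.cast hN.symm := by
        funext k l
        simp [hp]
      rw [h2]
      exact h1
    rw [Matrix.linearIndependent_rows_iff_isUnit, Matrix.isUnit_iff_isUnit_det] at this
    exact this.ne_zero
  have hQ : ∀ v : ι × τ → ℂ, eval v (Matrix.of fun k l =>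
      rename (fun i => (e k, π i)) (B l).1).det =
        (Matrix.of fun k l => ev (fun i => v (e k, π i)) l).det := by
    intro v
    rw [RingHom.map_det]
    congr 1
    ext k l
    simp [ev, eval_rename, Function.comp_def]
  refine ⟨(Matrix.of fun k l => rename (fun i => (e k, π i)) (B l).1).det, fun h0 => hdet ?_,
    fun v hv f hf h1 => ?_⟩
  · have := hQ fun s => Function.extend e (fun k => Function.extend π (p (Fin.cast hN.symm k)) 0)
      0 s.1 s.2
    rw [h0, map_zero] at this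
    simp only [he1.extend_apply, hπ.extend_apply] at this
    exact this.symm
  · rw [hQ] at hv
    have h2 := B.sum_repr ⟨f, hf⟩
    have h3 : B.repr ⟨f, hf⟩ = 0 := by
      have := Matrix.eq_zero_of_mulVec_eq_zero hv (v := B.repr ⟨f, hf⟩) (funext fun k => by
        have h4 := h1 _ (he2 k)
        have h5 : ∑ i, B.repr ⟨f, hf⟩ i • (B i).1 = f := by
          simpa only [AddSubmonoidClass.coe_finsetSum, SetLike.val_smul] using
            congrArg Subtype.val h2
        have h6 := (congrArg (eval fun i => v (e k, π i)) h5).trans h4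
        simp only [map_sum, smul_eval] at h6
        simpa [Matrix.mulVec, dotProduct, ev, mul_comm] using h6)
      exact DFunLike.coe_injective this
    exact congrArg Subtype.val (B.repr.map_eq_zero_iff.1 h3)

theorem gen_deg {σ ι τ : Type} [Fintype σ] (d : ℕ) (T : Finset ι) (π : σ → τ)
    (hπ : Function.Injective π) (h : (d + 1) ^ Fintype.card σ ≤ T.card) :
    ∀ᶠ v in gen (ι × τ), ∀ f : MvPolynomial σ ℂ, (∀ i, degreeOf i f ≤ d) →
      (∀ j ∈ T, eval (fun i => v (j, π i)) f = 0) → f = 0 := by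
  classical
  let b : (σ → Fin (d + 1)) → MvPolynomial σ ℂ := fun e =>
    monomial (Finsupp.equivFunOnFinite.symm fun i => (e i : ℕ)) 1
  have : Module.Finite ℂ (Submodule.span ℂ (Set.range b)) :=
    FiniteDimensional.span_of_finite ℂ (Set.finite_range b)
  refine (gen_sub (Submodule.span ℂ (Set.range b)) T π hπ
    ((finrank_range_le_card b).trans (by simpa using h))).mono fun v hv f hf => hv f ?_
  rw [f.as_sum]
  refine Submodule.sum_mem _ fun s hs => ?_
  have e : monomial s (coeff s f) = coeff s f • b fun i =>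
      ⟨s i, Nat.lt_succ_of_le ((monomial_le_degreeOf i hs).trans (hf i))⟩ := by
    simp [b, smul_monomial]
  rw [e]
  exact Submodule.smul_mem _ _ (Submodule.subset_span ⟨_, rfl⟩)

theorem numeric' {k A B N M : ℕ} (hA : 1 ≤ A) (hB : 1 ≤ B) (h1 : k < (A + 1) ^ 2)
    (h2 : k < (B + 1) ^ 3) (h3 : A * B ≤ N) (h4 : N ≤ M) :
    (k : ℝ) ≤ 8 * N * (M : ℝ) ^ (1 / 5 : ℝ) := by
  have e1 : k ≤ (2 * A) ^ 2 := h1.le.trans (Nat.pow_le_pow_left (by omega) 2)
  have e2 : k ≤ (2 * B) ^ 3 := h2.le.trans (Nat.pow_le_pow_left (by omega) 3)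
  have e3 : k ^ 5 ≤ 8 ^ 5 * N ^ 5 * M :=
    calc k ^ 5 = k ^ 3 * k ^ 2 := by ring
      _ ≤ ((2 * A) ^ 2) ^ 3 * ((2 * B) ^ 3) ^ 2 := by gcongr
      _ = 4096 * (A * B) ^ 5 * (A * B) := by ring
      _ ≤ 8 ^ 5 * N ^ 5 * M := by gcongr; norm_num; exact h3.trans h4
  refine le_of_pow_le_pow_left₀ (n := 5) (by norm_num) (by positivity) ?_
  have e4 : ((M : ℝ) ^ (1 / 5 : ℝ)) ^ 5 = M := by
    rw [← Real.rpow_natCast, ← Real.rpow_mul (by positivity)]
    norm_num
  rw [mul_pow, mul_pow, e4]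
  exact_mod_cast e3

theorem lt_choose3 {t : ℕ} (ht : 1 ≤ t) :
    t ^ 6 < (Fintype.card (Fin (1 + 2)) + 2 * t ^ 3 - 1).choose (2 * t ^ 3) := by
  have e : (Fintype.card (Fin (1 + 2)) + 2 * t ^ 3 - 1).choose (2 * t ^ 3) =
      (2 * t ^ 3 + 2).choose 2 := by
    rw [Fintype.card_fin, show 1 + 2 + 2 * t ^ 3 - 1 = 2 * t ^ 3 + 2 by omega, Nat.choose_symm_add]
  have h := Nat.add_choose_mul_factorial_mul_factorial (2 * t ^ 3) 2
  rw [Nat.factorial_succ (2 * t ^ 3 + 1), Nat.factorial_succ (2 * t ^ 3), mul_right_comm,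
    ← mul_assoc, Nat.mul_left_inj (Nat.factorial_ne_zero _)] at h
  rw [e]
  have h2 : Nat.factorial 2 = 2 := rfl
  rw [h2] at h
  have h3 := Nat.one_le_pow 3 t ht
  have h4 : t ^ 6 = t ^ 3 * t ^ 3 := by ring
  rw [h4]
  generalize t ^ 3 = s at *
  nlinarith

theorem lt_choose4 {t : ℕ} (ht : 1 ≤ t) :
    t ^ 6 < (Fintype.card (Fin (2 + 2)) + 2 * t ^ 2 - 1).choose (2 * t ^ 2) := by
  have e : (Fintype.card (Fin (2 + 2)) + 2 * t ^ 2 - 1).choose (2 * t ^ 2) =
      (2 * t ^ 2 + 3).choose 3 := by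
    rw [Fintype.card_fin, show 2 + 2 + 2 * t ^ 2 - 1 = 2 * t ^ 2 + 3 by omega, Nat.choose_symm_add]
  have h := Nat.add_choose_mul_factorial_mul_factorial (2 * t ^ 2) 3
  rw [Nat.factorial_succ (2 * t ^ 2 + 2), Nat.factorial_succ (2 * t ^ 2 + 1),
    Nat.factorial_succ (2 * t ^ 2), mul_right_comm, ← mul_assoc, ← mul_assoc,
    Nat.mul_left_inj (Nat.factorial_ne_zero _)] at h
  rw [e]
  have h2 : Nat.factorial 3 = 6 := rfl
  rw [h2] at h
  have h3 := Nat.one_le_pow 2 t ht
  have h4 : t ^ 6 = t ^ 2 * t ^ 2 * t ^ 2 := by ring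
  rw [h4]
  generalize t ^ 2 = s at *
  nlinarith [Nat.zero_le (s * s), Nat.zero_le (s * s * s)]

theorem growth65 (μ : ℕ → ℝ≥0∞) (C : ℝ)
    (up : ∀ m : ℕ, μ m ≤ ENNReal.ofReal (C * (m : ℝ) * (m : ℝ) ^ (1 / 5 : ℝ)))
    (lo : ∀ t : ℕ, 1 ≤ t → ((t ^ 6 : ℕ) : ℝ≥0∞) ≤ μ (4 * t ^ 5)) :
    IsGreatest {r : ℝ | 0 < limsup (fun m : ℕ => μ m / (m : ℝ≥0∞) ^ r) atTop} (6 / 5) := by
  constructor
  · refine lt_of_lt_of_le (b := ENNReal.ofReal (1 / 16)) (by simp) ?_
    refine le_limsup_of_frequently_le' (frequently_atTop.2 fun M => ?_)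
    refine ⟨4 * (M + 1) ^ 5, by nlinarith [Nat.le_self_pow (n := 5) (by norm_num) (M + 1)], ?_⟩
    generalize ht : M + 1 = t
    have h1 : 1 ≤ t := by omega
    refine ENNReal.le_div_iff_mul_le (Or.inl ?_) (Or.inl ?_) |>.2 (le_trans ?_ (lo t h1))
    · exact (ENNReal.rpow_pos (by positivity) (ENNReal.natCast_ne_top _)).ne'
    · exact ENNReal.rpow_ne_top_of_nonneg (by norm_num) (ENNReal.natCast_ne_top _)
    · rw [← ENNReal.ofReal_natCast, ← ENNReal.ofReal_natCast,
        ENNReal.ofReal_rpow_of_nonneg (by positivity) (by norm_num),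
        ← ENNReal.ofReal_mul (by norm_num)]
      refine ENNReal.ofReal_le_ofReal ?_
      push_cast
      rw [Real.mul_rpow (by norm_num) (by positivity), ← Real.rpow_natCast (t : ℝ) 5,
        ← Real.rpow_mul (by positivity)]
      have h2 : (4 : ℝ) ^ (6 / 5 : ℝ) ≤ 4 ^ (2 : ℝ) :=
        Real.rpow_le_rpow_of_exponent_le (by norm_num) (by norm_num)
      have h3 : (t : ℝ) ^ (((5 : ℕ) : ℝ) * (6 / 5)) = t ^ 6 := by
        rw [← Real.rpow_natCast]
        norm_num
      rw [h3]
      norm_num at h2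
      nlinarith [pow_nonneg (Nat.cast_nonneg (α := ℝ) t) 6]
  · intro r hr
    by_contra h
    push Not at h
    have hr' : (0 : ℝ≥0∞) < limsup
      (fun m : ℕ => μ m / (m : ℝ≥0∞) ^ r) atTop := hr
    refine hr'.ne' (Tendsto.limsup_eq ?_)
    have h1 : Tendsto (fun m : ℕ => ENNReal.ofReal (C * (m : ℝ) ^ (-(r - 6 / 5)))) atTop
        (nhds 0) := by
      have := ENNReal.tendsto_ofReal (((tendsto_rpow_neg_atTop (sub_pos.2 h)).comp
        tendsto_natCast_atTop_atTop).const_mul C)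
      simpa using this
    refine tendsto_of_tendsto_of_tendsto_of_le_of_le' tendsto_const_nhds h1
      (Eventually.of_forall fun _ => zero_le) ?_
    filter_upwards [eventually_ge_atTop 1] with m hm
    have h2 : (0 : ℝ) < m := by exact_mod_cast hm
    refine ENNReal.div_le_of_le_mul ((up m).trans (le_of_eq ?_))
    rw [← ENNReal.ofReal_natCast, ENNReal.ofReal_rpow_of_pos h2,
      ← ENNReal.ofReal_mul' (by positivity), mul_assoc, mul_assoc, ← Real.rpow_add h2,
      ← Real.rpow_one_add' h2.le (by norm_num)]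
    congr 3
    ring

end Pool.Agent.Lib.MP_b7b517_ag.Sc
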