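import Pool.Agent.Lib.MP_d3d358_ag.Cw.Defs

/-! Numerical equivalence of algebraic cycles and the mobility count. -/

set_option autoImplicit false

namespace Pool.Agent.Lib.MP_b7b517_ag.Sc

open CategoryTheory Limits AlgebraicGeometry MonoidalCategory Order
open Pool.Agent.Lib.MP_d3d358_ag.Cw
open scoped ENNReal

noncomputable section

attribute [local instance] MvPolynomial.gradedAlgebra in
/-- the projective line `Proj ℂ[x₀, x₁]` -/
def P1 : Sch := Over.mk (Proj.toSpecZero (MvPolynomial.homogeneousSubmodule (Fin 2) ℂ) ≫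
  Spec.map (CommRingCat.ofHom (algebraMap ℂ (MvPolynomial.homogeneousSubmodule (Fin 2) ℂ 0))))

/-- the product of five projective lines -/
def X5 : Sch := (P1 ⊗ P1) ⊗ P1 ⊗ P1 ⊗ P1

variable {W : Scheme.{0}}

open Classical in
/-- the degree of the zero dimensional part of a cycle -/
def deg (z : Cyc W) : ℚ := ∑ᶠ w, if height w = 0 then z w else 0

/-- numerical equivalence: `a` and `b` have the same intersection number with every cycle `c` -/
def NumEq (a b : Cyc W) : Prop :=
  ∀ c a' b' z z' : Cyc W, Rat a a' → Rat b b' → Cap a' c z → Cap b' c z' → deg z = deg z'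

/-- `a` is an effective integral `k`-cycle -/
def Eff (k : ℕ) (a : Cyc W) : Prop := ∀ w, a w ≠ 0 → height w = k ∧ ∃ n : ℕ, a w = n

/-- the complex point `p` lies on the cycle `a` -/
def Lies {X : Sch} (p : 𝟙_ Sch ⟶ X) (a : Cyc X.left) : Prop :=
  ∃ w, a w ≠ 0 ∧ w ⤳ p.left (IsLocalRing.closedPoint ℂ)

/-- the `b`-fold product -/
def pw (X : Sch) (b : ℕ) : Sch := ∏ᶜ fun _ : Fin b => X

/-- its projections -/
def pj (X : Sch) {b : ℕ} (j : Fin b) : pw X b ⟶ X := Pi.π (fun _ : Fin b => X) j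

/-- `b` general points of `X` lie on an effective `k`-cycle numerically equivalent to `α` -/
def Thru (X : Sch) (k : ℕ) (α : Cyc X.left) (b : ℕ) : Prop :=
  ∃ U : (pw X b).left.Opens, Dense (U : Set (pw X b).left) ∧
    ∀ p : 𝟙_ Sch ⟶ pw X b, p.left (IsLocalRing.closedPoint ℂ) ∈ U →
      ∃ a, Eff k a ∧ NumEq a α ∧ ∀ j, Lies (p ≫ pj X j) a

/-- the mobility count -/
def mc (X : Sch) (k : ℕ) (α : Cyc X.left) : ℝ≥0∞ := ⨆ (b : ℕ) (_ : Thru X k α b), (b : ℝ≥0∞)

end

end Pool.Agent.Lib.MP_b7b517_ag.Sc
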