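import Mathlib

/-! Hypersurfaces and degrees of field extensions. -/

set_option autoImplicit false

namespace Pool.Agent.Lib.MP_b7b517_ag.Sc

open MvPolynomial Set

variable {K L : Type} [Field K] [Algebra ℂ K] [Field L] [Algebra ℂ L] {n : ℕ}

theorem alg_top {σ : Type} (x : σ → K) (hx : IntermediateField.adjoin ℂ (range x) = ⊤) :
    Algebra.IsAlgebraic (Algebra.adjoin ℂ (range x)) K := by
  rw [← IntermediateField.isAlgebraic_adjoin_iff_top, hx]
  infer_instance

theorem fin_of_gens {σ : Type} [Finite σ] (x : σ → K)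
    (hx : IntermediateField.adjoin ℂ (range x) = ⊤) (E : Type) [Field E] [Algebra ℂ E]
    [Algebra E K] [IsScalarTower ℂ E K] (h : ∀ i, IsAlgebraic E (x i)) : Module.Finite E K := by
  have e : IntermediateField.adjoin E (range x) = ⊤ :=
    IntermediateField.adjoin_eq_top_of_adjoin_eq_top ℂ hx
  have : FiniteDimensional E (IntermediateField.adjoin E (range x)) :=
    IntermediateField.finiteDimensional_adjoin (by rintro _ ⟨i, rfl⟩; exact (h i).isIntegral)
  rw [e] at this
  exact Module.Finite.equiv (IntermediateField.topEquiv (F := E) (E := K)).toLinearEquiv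

theorem trdeg_lt (y : Fin (n + 1) → L) (hy : IntermediateField.adjoin ℂ (range y) = ⊤)
    (h : ¬AlgebraicIndependent ℂ y) : Algebra.trdeg ℂ L ≤ n := by
  by_contra hlt
  have := alg_top y hy
  refine h (Algebra.IsAlgebraic.isTranscendenceBasis_of_le_trdeg_of_finite ℂ y ?_).1
  rw [Cardinal.mk_fin, Nat.cast_succ]
  exact Cardinal.add_one_le_of_lt (not_le.1 hlt)

theorem img_compl (x : Fin (n + 1) → K) (i : Fin (n + 1)) :
    (range fun j => x (i.succAbove j)) = x '' {i}ᶜ := by
  rw [← Fin.range_succAbove, ← range_comp]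
  rfl

/-- take `f` irreducible in the kernel `𝔭` of `aeval x`; if the `x j`, `j ≠ i`, are independent, `f`
is irreducible over the fraction field of `ℂ[x j : j ≠ i]` (Gauss), so it is the minimal polynomial
of `x i` up to a unit and generates `𝔭`; one such `i` exists (a transcendence basis among the
generators), hence `𝔭 = (f)`, and for `degreeOf i f ≠ 0` no multiple of `f` avoids `X i` -/
theorem exists_poly (x : Fin (n + 1) → K) (hx : IntermediateField.adjoin ℂ (range x) = ⊤)
    (ht : Algebra.trdeg ℂ K = n) : ∃ f : MvPolynomial (Fin (n + 1)) ℂ, f ≠ 0 ∧ aeval x f = 0 ∧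
      (∃ i, degreeOf i f ≠ 0) ∧ ∀ i, degreeOf i f = 0 ∨
        AlgebraicIndependent ℂ (fun j => x (i.succAbove j)) ∧
        ∀ (L : Type) [Field L] [Algebra ℂ L] (φ : L →ₐ[ℂ] K) (y : Fin n → L),
          (∀ j, φ (y j) = x (i.succAbove j)) → IntermediateField.adjoin ℂ (range y) = ⊤ →
          degreeOf i f ≤ @Module.finrank L K _ _ φ.toRingHom.toAlgebra.toModule := by
  classical
  have hdep : ¬AlgebraicIndependent ℂ x := fun h => by
    have := h.cardinalMk_le_trdeg
    rw [ht, Cardinal.mk_fin, Nat.cast_le] at this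
    omega
  set S := {F : MvPolynomial (Fin (n + 1)) ℂ | F ≠ 0 ∧ F.aeval x = 0}
  obtain ⟨F, ⟨hF₀, hFa⟩, hFmin⟩ : ∃ F ∈ S, ∀ G : MvPolynomial (Fin (n + 1)) ℂ, G ≠ 0 →
      G.aeval x = 0 → totalDegree F ≤ totalDegree G := by
    suffices S.Nonempty from
      ⟨totalDegree.argminOn S this, totalDegree.argminOn_mem ..,
        fun _ h₁ h₂ => totalDegree.argminOn_le S ⟨h₁, h₂⟩⟩
    simpa [S, algebraicIndependent_iff, and_comm, Set.Nonempty] using hdep
  have hFirr : Irreducible F := irreducible_of_forall_totalDegree_le hFmin hF₀ hFa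
  refine ⟨F, hF₀, hFa, ?_, fun i => ?_⟩
  · by_contra h0
    have h1 : F.totalDegree = 0 := by
      rw [totalDegree_eq_zero_iff]
      intro m hm i
      have := (monomial_le_degreeOf i hm).trans_eq (not_not.1 fun h => h0 ⟨i, h⟩)
      omega
    rw [totalDegree_eq_zero_iff_eq_C.1 h1, aeval_C, map_eq_zero] at hFa
    exact hF₀ (by rw [totalDegree_eq_zero_iff_eq_C.1 h1, hFa, map_zero])
  refine (eq_or_ne (degreeOf i F) 0).imp_right fun hi => ?_
  obtain ⟨σ, hσ, hσe⟩ : ∃ σ ∈ F.support, degreeOf i F = σ i := by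
    rw [degreeOf_eq_sup]
    exact Finset.exists_mem_eq_sup _ (support_nonempty.2 hF₀) _
  have hσi : σ i ≠ 0 := hσe ▸ hi
  have alg := isAlgebraic_of_mem_vars_of_forall_totalDegree_le hFmin hFa i <|
    (mem_vars_iff_mem_support i).2 ⟨σ, hσ, by simpa⟩
  let k' := IntermediateField.adjoin ℂ (x '' {i}ᶜ)
  have hfin : Module.Finite k' K := fin_of_gens x hx k' fun j => by
    obtain rfl | hj := eq_or_ne j i
    · exact IntermediateField.isAlgebraic_adjoin_iff.2 alg
    · exact isAlgebraic_algebraMap (⟨x j, IntermediateField.subset_adjoin _ _ ⟨j, hj, rfl⟩⟩ : k')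
  have hind : AlgebraicIndependent ℂ fun j => x (i.succAbove j) := by
    have : Algebra.IsAlgebraic (Algebra.adjoin ℂ (range fun j => x (i.succAbove j))) K := by
      rw [img_compl, ← IntermediateField.isAlgebraic_adjoin_iff_top]
      exact Algebra.IsAlgebraic.of_finite k' K
    exact (Algebra.IsAlgebraic.isTranscendenceBasis_of_le_trdeg_of_finite ℂ _
      (by rw [ht, Cardinal.mk_fin])).1
  refine ⟨hind, fun L _ _ φ y hy hL => ?_⟩
  have Hi : AlgebraicIndependent ℂ fun j : {j | j ≠ i} => x j := by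
    have := hind.comp _ (finSuccAboveEquiv i).symm.injective
    have e : (fun j : {j | j ≠ i} => x j) =
        (fun j => x (i.succAbove j)) ∘ (finSuccAboveEquiv i).symm := funext fun j =>
      congrArg x (congrArg Subtype.val ((finSuccAboveEquiv i).apply_symm_apply j)).symm
    exact e ▸ this
  have hF₁ := irreducible_toPolynomialAdjoinImageCompl hFirr i Hi
  have := (AlgebraicIndepOn.aevalEquiv (s := {i}ᶜ) Hi).uniqueFactorizationMonoid inferInstance
  have cne := coeff_toPolynomialAdjoinImageCompl_ne_zero hFmin σ hσ i hσi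
  open scoped IntermediateField.algebraAdjoinAdjoin in
  have hF₂ := (hF₁.isPrimitive fun h => cne <| Polynomial.coeff_eq_zero_of_natDegree_lt <|
    h.trans_lt <| Nat.pos_iff_ne_zero.2 hσi).irreducible_iff_irreducible_map_fraction_map
    (K := k').1 hF₁
  open scoped IntermediateField.algebraAdjoinAdjoin in
  have hm := minpoly.eq_of_irreducible hF₂ ((Polynomial.aeval_map_algebraMap ..).trans
    (aeval_toPolynomialAdjoinImageCompl_eq_zero hFa i))
  have h1 : σ i ≤ (minpoly k' (x i)).natDegree := by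
    refine Polynomial.le_natDegree_of_ne_zero ?_
    rw [← hm, Polynomial.coeff_mul_C, Polynomial.coeff_map]
    exact mul_ne_zero ((map_ne_zero_iff _ (FaithfulSMul.algebraMap_injective ..)).2 cne)
      (inv_ne_zero (Polynomial.leadingCoeff_ne_zero.2 hF₂.ne_zero))
  refine hσe.trans_le (h1.trans ((minpoly.natDegree_le _).trans_eq ?_))
  have hr : φ.fieldRange = k' := by
    rw [AlgHom.fieldRange_eq_map, ← hL, IntermediateField.adjoin_map, ← range_comp]
    exact congrArg _ ((congrArg range (funext hy)).trans (img_compl x i))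
  let _ := φ.toRingHom.toAlgebra
  exact (Algebra.finrank_eq_of_equiv_equiv
    ((AlgEquiv.ofInjectiveField φ).trans (IntermediateField.equivOfEq hr)).toRingEquiv
    (RingEquiv.refl K) (by ext; rfl)).symm

theorem finrank_ne {σ : Type} [Finite σ] (x : σ → K)
    (hx : IntermediateField.adjoin ℂ (range x) = ⊤) (φ : L →ₐ[ℂ] K) (hK : Algebra.trdeg ℂ K = n)
    (hL : Algebra.trdeg ℂ L = n) : @Module.finrank L K _ _ φ.toRingHom.toAlgebra.toModule ≠ 0 := by
  let _ := φ.toRingHom.toAlgebra
  have : IsScalarTower ℂ L K := IsScalarTower.of_algebraMap_eq fun c => (φ.commutes c).symm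
  have e := trdeg_add_eq ℂ L (A := K)
  rw [hK, hL] at e
  have h0 : Algebra.trdeg L K = 0 :=
    (Cardinal.add_right_inj_of_lt_aleph0 (Cardinal.natCast_lt_aleph0 (n := n))).1
      (by rw [add_comm, e, zero_add])
  have := trdeg_eq_zero_iff.1 h0
  have := fin_of_gens x hx L fun i => Algebra.IsAlgebraic.isAlgebraic _
  exact Module.finrank_pos.ne'

/-- otherwise all the generators are algebraic over `ℂ[u 0, u 1]` -/
theorem dep_two (u : Fin 2 → K) (v : Fin 3 → K)
    (hx : IntermediateField.adjoin ℂ (range (Sum.elim u v)) = ⊤) (ht : Algebra.trdeg ℂ K = 3)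
    (h : ∀ j, ¬AlgebraicIndependent ℂ ![u 0, u 1, v j]) : ¬AlgebraicIndependent ℂ u := by
  intro hu
  let k' := IntermediateField.adjoin ℂ (range u)
  have hfin : Module.Finite k' K := fin_of_gens _ hx k' fun j => by
    obtain j | j := j
    · exact isAlgebraic_algebraMap (⟨u j, IntermediateField.subset_adjoin _ _ ⟨j, rfl⟩⟩ : k')
    · refine IntermediateField.isAlgebraic_adjoin_iff.2 (not_not.1 fun h' => h j ?_)
      have := ((hu.option_iff_transcendental (v j)).2 h').comp ![some 0, some 1, none]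
        (by decide)
      convert this using 1
      ext a
      fin_cases a <;> rfl
  have : Algebra.IsAlgebraic (Algebra.adjoin ℂ (range u)) K :=
    IntermediateField.isAlgebraic_adjoin_iff_top.1 (Algebra.IsAlgebraic.of_finite k' K)
  have := hu.isTranscendenceBasis_iff_isAlgebraic.2 this |>.cardinalMk_eq_trdeg
  rw [ht, Cardinal.mk_fin] at this
  exact absurd (by exact_mod_cast this : (2 : ℕ) = 3) (by decide)

end Pool.Agent.Lib.MP_b7b517_ag.Sc
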