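import Pool.Agent.Lib.MP_b7b517_ag.Sc.Base

/-! Coordinates in residue fields. -/

set_option autoImplicit false

namespace Pool.Agent.Lib.MP_b7b517_ag.Sc

open CategoryTheory AlgebraicGeometry Set
open Pool.Agent.Lib.MP_d3d358_ag.Cw Pool.Agent.Lib.MP_d3d358_ag.Mv

variable {P V W F Y : Sch} {σ τ : Type}

/-- `dm_trdeg`, `push_ev_zero`, `push_ev_surj` -/
theorem trdeg_Kp [Gd W] (w : W.left) : Algebra.trdeg ℂ (Kp w) = dm w := by
  exact MP_d3d358_ag.Mv.trdeg_Kp w

theorem crd_eq (L : Ln P) (π : Y ⟶ P) {T : Y.left.Opens} (h : T ≤ π.left ⁻¹ᵁ L.U) {y : Y.left}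
    (hy : y ∈ T) : L.crd π y = evA T y hy (π.left.appLE L.U T h L.x) := by
  rw [Ln.crd, dif_pos (show π.left y ∈ L.U from h hy), evA_map]
  rfl

theorem top_of_ev {U : Y.left.Opens} (hU : IsAffineOpen U) {y : Y.left} (hy : y ∈ U)
    {E : IntermediateField ℂ (Kp y)} (h : ∀ a, evA U y hy a ∈ E) : E = ⊤ :=
  top_unique fun z _ => by
    obtain ⟨a, b, rfl⟩ := push_ev_surj hU hy z
    exact E.div_mem (h a) (h b)

theorem crd_comp (L : Ln P) (f : V ⟶ Y) (π : Y ⟶ P) (v : V.left) :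
    L.crd (f ≫ π) v = rf f v (L.crd π (f.left v)) := by
  by_cases h : π.left (f.left v) ∈ L.U
  · rw [Ln.crd, Ln.crd, dif_pos h, dif_pos (show (f ≫ π).left v ∈ L.U from h)]
    exact ConcreteCategory.congr_hom (Scheme.residueFieldMap_comp f.left π.left v) _
  · rw [Ln.crd, Ln.crd, dif_neg h, dif_neg (show (f ≫ π).left v ∉ L.U from h), map_zero]

theorem gen_id (L : Ln P) : L.Gen fun _ : Fin 1 => 𝟙 P := by
  intro y hy
  have h : y ∈ L.U := hy 0
  have e : L.crd (𝟙 P) y = evA L.U y h L.x := by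
    rw [Ln.crd, dif_pos (hy 0)]
    exact ConcreteCategory.congr_hom (Scheme.residueFieldMap_id y) _
  refine top_of_ev L.aff h fun a => ?_
  obtain ⟨p, rfl⟩ := L.bij.2 a
  rw [← Polynomial.aeval_algHom_apply, ← e]
  exact IntermediateField.algebra_adjoin_le_adjoin _ _ (Algebra.adjoin_mono
    (singleton_subset_iff.2 (mem_range_self (f := fun _ : Fin 1 => L.crd (𝟙 P) y) 0))
    (Polynomial.aeval_mem_adjoin_singleton ℂ _))

theorem rf_mem (L : Ln P) (f : V ⟶ W) {π : σ → (W ⟶ P)} (h1 : L.Gen π) {v : V.left}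
    (hv : ∀ i, (π i).left (f.left v) ∈ L.U) {E : IntermediateField ℂ (Kp v)}
    (h : ∀ i, L.crd (f ≫ π i) v ∈ E) (z : Kp (f.left v)) : rf f v z ∈ E := by
  have : IntermediateField.adjoin ℂ (range fun i => L.crd (π i) (f.left v)) ≤ E.comap (rf f v) :=
    IntermediateField.adjoin_le_iff.2 (range_subset_iff.2 fun i => by
      have := h i
      rwa [crd_comp] at this)
  exact this ((h1 _ hv).ge IntermediateField.mem_top)

/-- `Sq.box` on a box of affine neighbourhoods, `push_ev_surj`, `evA_map` -/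
theorem gen_sq (L : Ln P) {f : V ⟶ W} {g : V ⟶ F} (h : Sq f g) {π : σ → (W ⟶ P)}
    {ρ : τ → (F ⟶ P)} (h1 : L.Gen π) (h2 : L.Gen ρ) :
    L.Gen (Sum.elim (fun i => f ≫ π i) fun j => g ≫ ρ j) := by
  intro v hv
  obtain ⟨U, hU, hx⟩ := exists_affine (f.left v)
  obtain ⟨U', hU', hx'⟩ := exists_affine (g.left v)
  refine top_of_ev (h.box_affine hU hU') ⟨hx, hx'⟩ fun s => ?_
  induction h.box hU hU' s using AddSubmonoid.closure_induction with
  | mem x hx =>
    obtain ⟨a, b, rfl⟩ := hx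
    rw [map_mul, evA_map, evA_map]
    refine mul_mem (rf_mem L f h1 (fun i => hv (.inl i)) (fun i => ?_) _)
      (rf_mem L g h2 (fun i => hv (.inr i)) (fun i => ?_) _)
    · exact IntermediateField.subset_adjoin _ _ ⟨.inl i, rfl⟩
    · exact IntermediateField.subset_adjoin _ _ ⟨.inr i, rfl⟩
  | zero => rw [map_zero]; exact zero_mem _
  | add x y _ _ p q => rw [map_add]; exact add_mem p q

theorem gen_of_range (L : Ln P) {π : σ → (Y ⟶ P)} {ρ : τ → (Y ⟶ P)} (h : L.Gen π)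
    (e : range π ⊆ range ρ) : L.Gen ρ := by
  intro y hy
  choose j hj using fun i => e ⟨i, rfl⟩
  refine top_unique ((h y fun i => hj i ▸ hy (j i)).ge.trans
    (IntermediateField.adjoin.mono _ _ _ ?_))
  rintro _ ⟨i, rfl⟩
  exact ⟨j i, by simp only [hj]⟩

/-- the section `aeval (fun i => (π i).left.appLE L.U O _ L.x) f` on a finite intersection `O` of
open sets; `evA_map`, `val_appLE`, `valA`, `mem_basicOpen_iff` -/
theorem crd_spec (L : Ln P) [Finite σ] (π : σ → (Y ⟶ P)) {y : Y.left} {q : Pnt Y} (h : y ⤳ q.pt)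
    (hq : ∀ i, (q.map (π i)).pt ∈ L.U) {f : MvPolynomial σ ℂ}
    (e : MvPolynomial.aeval (fun i => L.crd (π i) y) f = 0) :
    MvPolynomial.eval (fun i => val L.U L.x (q.map (π i))) f = 0 := by
  let O : Y.left.Opens := ⟨⋂ i, ((π i).left ⁻¹ᵁ L.U : Y.left.Opens),
    isOpen_iInter_of_finite fun i => ((π i).left ⁻¹ᵁ L.U).isOpen⟩
  have le (i) : O ≤ (π i).left ⁻¹ᵁ L.U := iInter_subset _ i
  have h1 : q.pt ∈ O := mem_iInter.2 hq
  have h2 : y ∈ O := h.mem_open O.isOpen h1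
  have h3 : evA O y h2 (MvPolynomial.aeval (fun i => (π i).left.appLE L.U O (le i) L.x) f) = 0 := by
    rw [MvPolynomial.comp_aeval_apply, ← e]
    simp only [crd_eq L _ (le _) h2]
  have h4 := mt (h.mem_open (Y.left.basicOpen _).isOpen)
    ((Y.left.evaluation_eq_zero_iff_notMem_basicOpen y h2 _).1 h3)
  rw [SetLike.mem_coe, mem_basicOpen_iff, not_not, ← valA_apply q h1, ← Sp.hom_apply,
    MvPolynomial.comp_aeval_apply] at h4
  simp only [Sp.hom_apply, valA_apply, val_appLE _ _ _ h1] at h4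
  exact h4

end Pool.Agent.Lib.MP_b7b517_ag.Sc
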