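import Pool.Agent.Lib.MP_b7b517_ag.Sc.Num
import Pool.Agent.Lib.MP_b7b517_ag.Sc.Res
import Pool.Agent.Lib.MP_b7b517_ag.Sc.Fld

/-! Degrees of hypersurfaces in a power of the line. -/

set_option autoImplicit false

namespace Pool.Agent.Lib.MP_b7b517_ag.Sc

open CategoryTheory AlgebraicGeometry Set Order MvPolynomial
open Pool.Agent.Lib.MP_d3d358_ag.Cw Pool.Agent.Lib.MP_d3d358_ag.Mv Pool.Agent.Lib.MP_d3d358_ag.AS

variable {P Y Z : Sch} {n : ℕ}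

theorem dom (L : Ln P) [Gd Z] {η : Z.left} (hη : ∀ z, η ⤳ z) (hn : dm η = n) (q : Y ⟶ Z)
    (ρ : Fin n → (Z ⟶ P)) {y : Y.left}
    (h : AlgebraicIndependent ℂ fun j => L.crd (q ≫ ρ j) y) : q.left y = η := by
  have h1 : AlgebraicIndependent ℂ fun j => L.crd (ρ j) (q.left y) :=
    AlgebraicIndependent.of_comp (rf q y) (by
      convert h using 1
      exact funext fun j => (crd_comp L q (ρ j) y).symm)
  have h2 := h1.cardinalMk_le_trdeg
  rw [trdeg_Kp, Cardinal.mk_fin, Nat.cast_le] at h2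
  by_contra e
  have := dm_lt (hη (q.left y)) (Ne.symm e)
  omega

variable [Gd Y] [Gd Z] {ω : HW Z}

theorem ndom (L : Ln P) (hZ : Mf Z n) (hω : ω ∈ Hd Z (2 * n)) (h1 : tp Z ω = 1) {σ : Type}
    [Finite σ] {π : σ → (Y ⟶ P)} (gπ : L.Gen π) (q : Y ⟶ Z) (ρ : Fin n → (Z ⟶ P)) {y : Y.left}
    (hy : dm y = n) (c : ∀ i, (π i).left y ∈ L.U) (h0 : Phi y (pb q ω) = 0) :
    ¬AlgebraicIndependent ℂ fun j => L.crd (q ≫ ρ j) y := fun h => by
  have := hZ.int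
  obtain ⟨η, hη⟩ := pul_gen Z
  have e := dom L hη (hZ.dm hη) q ρ h
  obtain ⟨t, t1, t2⟩ := phi_pb hZ hη hω h1 q y
  rw [h0, t2 hy e, eq_comm, Nat.cast_eq_zero] at t1
  exact finrank_ne (n := n) _ (gπ y c) (rf q y) (by rw [trdeg_Kp, hy])
    (by rw [trdeg_Kp, e, hZ.dm hη]) t1

theorem fac (L : Ln P) (hZ : Mf Z n) (hω : ω ∈ Hd Z (2 * n)) (h1 : tp Z ω = 1)
    {π : Fin (n + 1) → (Y ⟶ P)} {ρ : Fin n → (Z ⟶ P)} (q : Fin (n + 1) → (Y ⟶ Z))
    (hq : ∀ i j, q i ≫ ρ j = π (i.succAbove j)) (gπ : L.Gen π) (gρ : L.Gen ρ) {y : Y.left}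
    (hy : dm y = n) (c : ∀ i, (π i).left y ∈ L.U) : ∃ (A : ℕ) (f : MvPolynomial (Fin (n + 1)) ℂ),
      1 ≤ A ∧ Phi y (∑ i, pb (q i) ω) = A ∧ f ≠ 0 ∧ aeval (fun i => L.crd (π i) y) f = 0 ∧
        ∀ i, degreeOf i f ≤ A := by
  have := hZ.int
  obtain ⟨η, hη⟩ := pul_gen Z
  choose t t1 t2 using fun i => phi_pb hZ hη hω h1 (q i) y
  obtain ⟨f, f0, f1, ⟨i₀, f2⟩, f3⟩ := exists_poly _ (gπ y c) (by rw [trdeg_Kp, hy])
  have key : ∀ i, degreeOf i f ≤ ∑ i, t i := fun i => by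
    refine le_trans ?_ (Finset.single_le_sum (fun _ _ => Nat.zero_le _) (Finset.mem_univ i))
    obtain e | ⟨a, b⟩ := f3 i
    · rw [e]; exact Nat.zero_le _
    · rw [t2 i hy (dom L hη (hZ.dm hη) (q i) ρ (by simpa only [hq] using a))]
      refine b _ (rf (q i) y) (fun j => L.crd (ρ j) ((q i).left y))
        (fun j => by rw [← crd_comp, hq]) (gρ _ fun j => ?_)
      have := c (i.succAbove j)
      rwa [← hq] at this
  exact ⟨∑ i, t i, f, (Nat.one_le_iff_ne_zero.2 f2).trans (key i₀),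
    by simp only [map_sum, t1, Nat.cast_sum], f0, f1, key⟩

omit [Gd Y] in
theorem dm_le (L : Ln P) {ρ : Fin (n + 1) → (Z ⟶ P)} (gρ : L.Gen ρ) (q : Y ⟶ Z) {y : Y.left}
    (c : ∀ i, (q ≫ ρ i).left y ∈ L.U)
    (h : ¬AlgebraicIndependent ℂ fun j => L.crd (q ≫ ρ j) y) : dm (q.left y) ≤ n := by
  have := trdeg_lt _ (gρ (q.left y) c) fun a => h (by
    convert a.map' (f := rf q y) (rf q y).toRingHom.injective using 1
    exact funext fun j => crd_comp L q (ρ j) y)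
  rwa [trdeg_Kp, Nat.cast_le] at this

theorem Eff.dm {k : ℕ} {a : Cyc Y.left} (h : Eff k a) {w : Y.left} (hw : a w ≠ 0) : dm w = k := by
  have := (h w hw).1
  rwa [height_eq, Nat.cast_inj] at this

theorem Eff.ev_zero {k : ℕ} {a : Cyc Y.left} (h : Eff k a) {j : ℤ} (hj : j ≠ 2 * k) {u : HW Y}
    (hu : u ∈ Hd Y j) : ev a u = 0 := by
  rw [ev_apply]
  refine finsum_eq_zero_of_forall_eq_zero fun w => ?_
  by_cases e : a w = 0
  · rw [e, zero_mul]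
  · rw [Phi_deg w (by rwa [h.dm e]) hu, mul_zero]

theorem Eff.sum_le {k : ℕ} {a : Cyc Y.left} (h : Eff k a) {u : HW Y} {N : Y.left → ℕ}
    (hN : ∀ w, Phi w u = N w) : ((∑ w ∈ (supp_fin a).toFinset, N w : ℕ) : ℚ) ≤ ev a u := by
  rw [ev_apply, finsum_eq_sum_of_support_subset (s := (supp_fin a).toFinset) _ fun w hw => by
    simpa using left_ne_zero_of_mul hw, Nat.cast_sum]
  refine Finset.sum_le_sum fun w hw => ?_
  have h0 : a w ≠ 0 := by simpa using hw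
  obtain ⟨m, e⟩ := (h w h0).2
  rw [e] at h0
  rw [hN, e]
  have : (1 : ℚ) ≤ m := by exact_mod_cast Nat.one_le_iff_ne_zero.2 (Nat.cast_ne_zero.1 h0)
  exact le_mul_of_one_le_left (Nat.cast_nonneg _) this

theorem Eff.phi_zero {k : ℕ} {a : Cyc Y.left} (h : Eff k a) {u : HW Y}
    (hN : ∀ w, ∃ t : ℕ, Phi w u = t) (h0 : ev a u = 0) {w : Y.left} (hw : a w ≠ 0) :
    Phi w u = 0 := by
  choose N hN using hN
  have := h.sum_le hN
  rw [h0, ← Nat.cast_zero, Nat.cast_le, Nat.le_zero, Finset.sum_eq_zero_iff] at this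
  rw [hN, this w (by simpa using hw), Nat.cast_zero]

end Pool.Agent.Lib.MP_b7b517_ag.Sc
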