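import Pool.Agent.Lib.MP_b7b517_ag.Sc.Base

/-! Dense open subsets of a power of the line. -/

set_option autoImplicit false

namespace Pool.Agent.Lib.MP_b7b517_ag.Sc

open CategoryTheory AlgebraicGeometry Set
open Pool.Agent.Lib.MP_d3d358_ag.Cw Pool.Agent.Lib.MP_d3d358_ag.Mv

noncomputable section

variable {P Y W : Sch} {τ : Type} {U : W.left.Opens} {R R' : Type} [CommRing R] [Algebra ℂ R]
  [CommRing R'] [Algebra ℂ R']

/-- the spectrum of an algebra -/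
def SpA (R : Type) [CommRing R] [Algebra ℂ R] : Sch :=
  Over.mk (Spec.map (CommRingCat.ofHom (algebraMap ℂ R)))

theorem gen_hom (hU : IsAffineOpen U) : hU.fromSpec ≫ W.hom =
    Spec.map (CommRingCat.ofHom (algebraMap ℂ Γ(W.left, U))) := by
  have e := IsAffineOpen.SpecMap_appLE_fromSpec W.hom (isAffineOpen_top _) hU le_top
  rw [IsAffineOpen.fromSpec_top, Scheme.isoSpec_Spec_inv, ← Spec.map_comp] at e
  exact e.symm

/-- a point of an affine open set with values in `R` -/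
def ofA (hU : IsAffineOpen U) (φ : Γ(W.left, U) →ₐ[ℂ] R) : SpA R ⟶ W :=
  Over.homMk (Spec.map (CommRingCat.ofHom φ.toRingHom) ≫ hU.fromSpec) (by
    change (_ ≫ _) ≫ W.hom = Spec.map _
    rw [Category.assoc, gen_hom, ← Spec.map_comp]
    congr 1
    ext c
    exact φ.commutes c)

/-- the map of spectra -/
def mapA (ψ : R →ₐ[ℂ] R') : SpA R' ⟶ SpA R :=
  Over.homMk (Spec.map (CommRingCat.ofHom ψ.toRingHom)) (by
    change Spec.map _ ≫ Spec.map _ = Spec.map _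
    rw [← Spec.map_comp]
    congr 1
    ext c
    exact ψ.commutes c)

/-- a complex point of a spectrum -/
def ptA (q : R →ₐ[ℂ] ℂ) : Pnt (SpA R) :=
  Over.homMk (Spec.map (CommRingCat.ofHom q.toRingHom)) (by
    change Spec.map _ ≫ Spec.map _ = 𝟙 _
    rw [← Spec.map_comp, ← Spec.map_id]
    congr 1
    ext c
    exact q.commutes c)

theorem mapA_ofA (hU : IsAffineOpen U) (φ : Γ(W.left, U) →ₐ[ℂ] R) (ψ : R →ₐ[ℂ] R') :
    mapA ψ ≫ ofA hU φ = ofA hU (ψ.comp φ) :=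
  Over.OverMorphism.ext (by
    change Spec.map _ ≫ Spec.map _ ≫ _ = Spec.map _ ≫ _
    rw [← Category.assoc, ← Spec.map_comp]
    rfl)

theorem ptA_ofA (hU : IsAffineOpen U) (φ : Γ(W.left, U) →ₐ[ℂ] R) (q : R →ₐ[ℂ] ℂ) :
    (ptA q).map (ofA hU φ) = ofSp hU (q.comp φ) :=
  Pnt.ext_mor (by
    change Spec.map _ ≫ Spec.map _ ≫ _ = Spec.map _ ≫ _
    rw [← Category.assoc, ← Spec.map_comp]
    rfl)

theorem ofA_mem (hU : IsAffineOpen U) (φ : Γ(W.left, U) →ₐ[ℂ] R) (r : (SpA R).left) :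
    (ofA hU φ).left r ∈ U := by
  rw [← SetLike.mem_coe, ← hU.range_fromSpec]
  exact ⟨_, rfl⟩

theorem ofA_id (f : Y ⟶ W) (hU : IsAffineOpen U) {T : Y.left.Opens} (hT : IsAffineOpen T)
    (h : T ≤ f.left ⁻¹ᵁ U) : ∃ φ, ofA hT (AlgHom.id ℂ _) ≫ f = ofA hU φ := by
  obtain ⟨φ, hφ⟩ := exists_appA f h
  refine ⟨φ, Over.OverMorphism.ext ?_⟩
  change (Spec.map (𝟙 _) ≫ hT.fromSpec) ≫ f.left = Spec.map _ ≫ _
  rw [Spec.map_id, Category.id_comp, ← IsAffineOpen.SpecMap_appLE_fromSpec f.left hU hT h]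
  congr 2
  ext s
  exact (hφ s).symm

theorem exists_gen (L : Ln P) [Finite τ] (ρ : τ → (Y ⟶ P))
    (hl : ∀ (T : Sch) (φ : τ → (T ⟶ P)), ∃! m : T ⟶ Y, ∀ t, m ≫ ρ t = φ t)
    (O : Y.left.Opens) (hO : Dense (O : Set Y.left)) : ∃ Q : MvPolynomial τ ℂ, Q ≠ 0 ∧
      ∀ v, MvPolynomial.eval v Q ≠ 0 → ∃ p : Pnt Y, p.pt ∈ O ∧
        ∀ t, (p.map (ρ t)).pt ∈ L.U ∧ val L.U L.x (p.map (ρ t)) = v t := by
  let e := AlgEquiv.ofBijective _ L.bij
  have ex : e.symm L.x = Polynomial.X := e.symm_apply_eq.2 (Polynomial.aeval_X L.x).symm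
  let E : τ → (Γ(P.left, L.U) →ₐ[ℂ] MvPolynomial τ ℂ) := fun t =>
    (Polynomial.aeval (MvPolynomial.X t)).comp e.symm.toAlgHom
  have hE : ∀ t, E t L.x = MvPolynomial.X t := fun t => by
    change Polynomial.aeval _ (e.symm L.x) = _
    rw [ex, Polynomial.aeval_X]
  obtain ⟨M, hM, -⟩ := hl (SpA (MvPolynomial τ ℂ)) fun t => ofA L.aff (E t)
  have hC : IsOpen (⋂ t, ((ρ t).left ⁻¹ᵁ L.U : Set Y.left)) :=
    isOpen_iInter_of_finite fun t => ((ρ t).left ⁻¹ᵁ L.U).isOpen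
  obtain ⟨y, y1, y2⟩ := hO.inter_open_nonempty _ hC
    ⟨M.left (⟨⊥, Ideal.isPrime_bot⟩ : PrimeSpectrum (MvPolynomial τ ℂ)), mem_iInter.2 fun t => by
      have := ofA_mem L.aff (E t) (⟨⊥, Ideal.isPrime_bot⟩ : PrimeSpectrum (MvPolynomial τ ℂ))
      rw [← hM t] at this
      exact this⟩
  obtain ⟨T, hT, yT, le⟩ := exists_affine_le (U' := ⟨_, hC⟩ ⊓ O) (x := y) ⟨y1, y2⟩
  choose φ hφ using fun t => ofA_id (ρ t) L.aff hT fun z hz => mem_iInter.1 (le hz).1 t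
  have key : mapA (MvPolynomial.aeval fun t => φ t L.x) ≫ M = ofA hT (AlgHom.id ℂ _) := by
    refine (hl _ fun t => ofA L.aff (φ t)).unique (fun t => ?_) hφ
    rw [Category.assoc, hM, mapA_ofA]
    congr 1
    refine (AlgHom.cancel_right (f := e.toAlgHom) e.surjective).1 (Polynomial.algHom_ext ?_)
    change MvPolynomial.aeval _ (E t (Polynomial.aeval L.x Polynomial.X)) =
      φ t (Polynomial.aeval L.x Polynomial.X)
    rw [Polynomial.aeval_X, hE, MvPolynomial.aeval_X]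
  have mem : (mapA (MvPolynomial.aeval fun t => φ t L.x)).left (hT.primeIdealOf ⟨y, yT⟩) ∈
      M.left ⁻¹ᵁ O := by
    have := (le (ofA_mem hT (AlgHom.id ℂ _) (hT.primeIdealOf ⟨y, yT⟩))).2
    rw [← key] at this
    exact this
  obtain ⟨_, ⟨Q, rfl⟩, q1, q2⟩ := PrimeSpectrum.isTopologicalBasis_basic_opens.exists_subset_of_mem_open
    (α := PrimeSpectrum (MvPolynomial τ ℂ)) mem (M.left ⁻¹ᵁ O).isOpen
  refine ⟨Q, fun z => q1 (z ▸ zero_mem _), fun v hv =>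
    ⟨(ptA (MvPolynomial.aeval v)).map M, q2 ?_, fun t => ?_⟩⟩
  · change ¬MvPolynomial.aeval v Q ∈ IsLocalRing.maximalIdeal ℂ
    rwa [IsLocalRing.maximalIdeal_eq_bot, Ideal.mem_bot]
  · rw [← Pnt.map_comp, hM, ptA_ofA]
    refine ⟨ofSp_mem _ _, (val_ofSp _ _ _).trans ?_⟩
    change MvPolynomial.aeval v (E t L.x) = _
    rw [hE, MvPolynomial.aeval_X]

end

end Pool.Agent.Lib.MP_b7b517_ag.Sc
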