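import Pool.Agent.Lib.MP_b7b517_ag.Sc.Base
import Pool.Agent.Lib.MP_b7b517_ag.Poly

/-! Hypersurface sections through given points. -/

set_option autoImplicit false

namespace Pool.Agent.Lib.MP_b7b517_ag.Sc

open CategoryTheory AlgebraicGeometry Set
open Pool.Agent.Lib.MP_d3d358_ag.Cw Pool.Agent.Lib.MP_d3d358_ag.Mv
open MvPolynomial (aeval eval X)

variable {W : Sch} {U : W.left.Opens} {ι κ : Type}

/-- a nonzero form does not vanish at `(1, y)` when `y` is algebraically independent -/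
theorem hyp_ne {A : Type} [CommRing A] [Algebra ℂ A] {m d : ℕ} {y : Fin m → A}
    (hy : AlgebraicIndependent ℂ y) {G : MvPolynomial (Fin (m + 1)) ℂ} (hG : G.IsHomogeneous d)
    (h0 : G ≠ 0) : aeval (Fin.cons 1 y : Fin (m + 1) → A) G ≠ 0 := fun h => h0 (by
  have e : ∀ {B : Type} [CommRing B] [Algebra ℂ B] (x : Fin m → B),
      aeval x (aeval (Fin.cons 1 X : Fin (m + 1) → MvPolynomial (Fin m) ℂ) G) =
        aeval (Fin.cons 1 x : Fin (m + 1) → B) G := fun x => by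
    rw [← AlgHom.comp_apply, MvPolynomial.comp_aeval]
    congr 2
    funext i
    induction i using Fin.cases <;> simp
  have e1 := hy (a₂ := 0) ((e y).trans (h.trans (map_zero _).symm))
  refine (mul_eq_zero.1 (MvPolynomial.funext (p := X 0 * G) (q := 0) fun v => ?_)).resolve_left
    (MvPolynomial.X_ne_zero 0)
  rw [map_zero, map_mul, MvPolynomial.eval_X]
  refine mul_eq_zero.2 (or_iff_not_imp_left.2 fun v0 => ?_)
  have e2 : v = v 0 • (Fin.cons 1 fun i => v i.succ / v 0 : Fin (m + 1) → ℂ) := by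
    funext i
    induction i using Fin.cases
    · simp
    · simp [mul_div_cancel₀ _ v0]
  rw [e2, ← MvPolynomial.coe_aeval_eq_eval]
  change aeval _ G = 0
  rw [hk_sc hG, ← e, e1, map_zero, mul_zero])

theorem hyp_coh (hU : IsAffineOpen U) {z : W.left} (hz : z ∈ U) :
    (pri hU hz).height = Order.coheight z := by
  let := TopCat.Presheaf.algebra_section_stalk W.left.presheaf (⟨z, hz⟩ : U)
  have := hU.isLocalization_stalk ⟨z, hz⟩
  have e := IsLocalization.AtPrime.ringKrullDim_eq_height (pri hU hz) (W.left.presheaf.stalk z)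
  rw [ringKrullDim_stalk_eq_coheight] at e
  exact (WithBot.coe_injective e).symm

variable [IsIntegral W.left]

theorem hyp_gen {z : W.left} (hz : z ∈ U) : genericPoint W.left ∈ U :=
  (div_gen z).mem_open U.isOpen hz

/-- a section as a rational function -/
noncomputable def hyp_gf (h : genericPoint W.left ∈ U) :
    Γ(W.left, U) →+* W.left.functionField := (W.left.presheaf.germ U _ h).hom

theorem hyp_res : ∃ ρ : W.left.functionField →+* Kp (genericPoint W.left), Function.Injective ρ ∧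
    ∀ (U : W.left.Opens) (h : genericPoint W.left ∈ U) (a : Γ(W.left, U)),
      ρ (hyp_gf h a) = evA U _ h a :=
  ⟨(W.left.residue _).hom, RingHom.injective _, fun _ _ _ => rfl⟩

theorem hyp_gf_ne (h : genericPoint W.left ∈ U) {g : Γ(W.left, U)} : hyp_gf h g ≠ 0 ↔ g ≠ 0 :=
  map_ne_zero_iff _ (germ_injective_of_isIntegral _ _ h)

theorem hyp_sec (D : Prj W ι) (e : κ → ι) {G : MvPolynomial κ ℂ} {d : ℕ} (hG : G.IsHomogeneous d)
    {j k : ι} (hj : genericPoint W.left ∈ D.U j) (hk : genericPoint W.left ∈ D.U k) :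
    hyp_gf hj (aeval (fun i => D.s (e i) j) G) =
      hyp_gf hj (D.s k j) ^ d * hyp_gf hk (aeval (fun i => D.s (e i) k) G) := by
  obtain ⟨ρ, r1, r2⟩ := hyp_res (W := W)
  apply r1
  rw [map_mul, map_pow, r2, r2, r2, ← AlgHom.comp_apply, ← AlgHom.comp_apply,
    MvPolynomial.comp_aeval, MvPolynomial.comp_aeval, ← hk_sc hG]
  congr 2
  funext i
  exact (D.coc (e i) j k _ hj hk).trans (mul_comm _ _)

theorem hyp_s_ne (D : Prj W ι) {j k : ι} (hj : genericPoint W.left ∈ D.U j)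
    (hk : genericPoint W.left ∈ D.U k) : D.s k j ≠ 0 := fun h =>
  (D.mem j k _ hj).1 hk (by rw [h, map_zero])

variable [IsLocallyNoetherian W.left]

theorem hyp_pow {f : W.left.functionField} (hf : f ≠ 0) (d : ℕ) (z : W.left) :
    Scheme.ord (f ^ d) z = d * Scheme.ord f z := by
  have h1 : Scheme.ord (1 : W.left.functionField) z = 0 := by
    have := Scheme.ord_mul (x := z) (one_ne_zero (α := W.left.functionField)) one_ne_zero
    rw [mul_one] at this
    omega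
  induction d with
  | zero => simpa using h1
  | succ d ih =>
    rw [pow_succ, Scheme.ord_mul (pow_ne_zero _ hf) hf, ih]
    push_cast
    ring

theorem hyp_ord {z : W.left} (hz : z ∈ U) {g : Γ(W.left, U)} (g0 : g ≠ 0) :
    ∃ m : ℕ, Scheme.ord (hyp_gf (hyp_gen hz) g) z = m ∧
      (m ≠ 0 ↔ Order.coheight z = 1 ∧ z ∉ W.left.basicOpen g) := by
  by_cases h1 : Order.coheight z = 1
  swap
  · exact ⟨0, Scheme.ord_eq_zero_of_coheight_neq_one h1 _, by simp [h1]⟩
  have : Nonempty U := ⟨⟨z, hz⟩⟩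
  have : Ring.KrullDimLE 1 (W.left.presheaf.stalk z) := krullDimLE_of_coheight_le h1.le
  have g1 : W.left.presheaf.germ U z hz g ≠ 0 :=
    (map_ne_zero_iff _ (germ_injective_of_isIntegral _ z hz)).2 g0
  have g2 := mem_nonZeroDivisors_of_ne_zero g1
  refine ⟨(Ring.ord _ (W.left.presheaf.germ U z hz g)).toNat, ?_, ?_⟩
  · change Scheme.ord (W.left.germToFunctionField U g) z = _
    rw [Scheme.ord_eq_iff h1 ((map_ne_zero_iff _ (W.left.germToFunctionField_injective U)).2 g0),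
      ← Scheme.algebraMap_germ_eq_germToFunctionField _ hz]
    refine (Ring.ordFrac_eq_ord _ g1).trans (Ring.ordMonoidWithZeroHom_eq_coe _ g2 ?_)
    exact (ENat.natCast_toNat (Ring.ord_ne_top g2)).symm
  · rw [Ne, ENat.toNat_eq_zero, or_iff_left (Ring.ord_ne_top g2), Ring.ord,
      Module.length_eq_zero_iff, Ideal.Quotient.subsingleton_iff, Ideal.span_singleton_eq_top,
      W.left.mem_basicOpen g z hz, and_iff_right h1]

/-- Krull's principal ideal theorem -/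
theorem hyp_krull (hU : IsAffineOpen U) {x : W.left} (hx : x ∈ U) {g : Γ(W.left, U)} (g0 : g ≠ 0)
    (hg : x ∉ W.left.basicOpen g) :
    ∃ w ∈ U, Order.coheight w = 1 ∧ w ∉ W.left.basicOpen g ∧ w ⤳ x := by
  have : Nonempty U := ⟨⟨x, hx⟩⟩
  have : IsNoetherianRing Γ(W.left, U) := IsLocallyNoetherian.component_noetherian ⟨U, hU⟩
  obtain ⟨P, hP, hle⟩ := Ideal.exists_minimalPrimes_le
    ((Ideal.span_singleton_le_iff_mem _).2 ((push_mem_pri hU hx g).2 hg))
  have gP : g ∈ P := (Ideal.span_singleton_le_iff_mem _).1 hP.1.2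
  have h1 : P.height = 1 :=
    le_antisymm (Ideal.height_le_one_of_isPrincipal_of_mem_minimalPrimes _ P hP)
      (Order.one_le_iff_ne_zero.2 fun h => g0 (by
        rwa [Ideal.height_eq_zero_iff_eq_bot.1 h, Ideal.mem_bot] at gP))
  have hw : hU.fromSpec ⟨P, hP.1.1⟩ ∈ U := by
    change _ ∈ (U : Set W.left)
    rw [← hU.range_fromSpec]
    exact mem_range_self _
  have e : pri hU hw = P := congrArg PrimeSpectrum.asIdeal
    (hU.fromSpec.isOpenEmbedding.injective (hU.fromSpec_primeIdealOf ⟨_, hw⟩))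
  exact ⟨_, hw, by rw [← hyp_coh hU hw, e, h1], (push_mem_pri hU hw g).1 (e.ge gP),
    (specializes_iff_pri hU hw hx).2 (e.le.trans hle)⟩

theorem hyp_chart (D : Prj W ι) (j₀ : ι) (h₀ : genericPoint W.left ∈ D.U j₀) {j k : ι} {z : W.left}
    (hj : z ∈ D.U j) (hk : z ∈ D.U k) : Scheme.ord (hyp_gf (hyp_gen hj) (D.s j₀ j)) z =
      Scheme.ord (hyp_gf (hyp_gen hk) (D.s j₀ k)) z := by
  have e := hyp_sec D (fun _ : Unit => j₀) (MvPolynomial.isHomogeneous_X ℂ ()) (hyp_gen hj)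
    (hyp_gen hk)
  rw [MvPolynomial.aeval_X, MvPolynomial.aeval_X, pow_one] at e
  have s0 := hyp_s_ne D (hyp_gen hj) (hyp_gen hk)
  obtain ⟨m, h1, h2⟩ := hyp_ord hj s0
  have m0 : m = 0 := by_contra fun h => (D.mem j k z hj).1 hk
    ((push_ev_zero (D.aff j) hj _).2 ((push_mem_pri (D.aff j) hj _).2 (h2.1 h).2))
  rw [e, Scheme.ord_mul ((hyp_gf_ne _).2 s0) ((hyp_gf_ne _).2 (hyp_s_ne D (hyp_gen hk) h₀)), h1, m0]
  simp

variable [Gd W]

theorem hyp_eff {n : ℕ} (hn : dm (genericPoint W.left) = n + 1) {c : Cyc W.left}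
    (h : ∀ z, ∃ (U : W.left.Opens) (hz : z ∈ U) (g : Γ(W.left, U)), g ≠ 0 ∧
      c z = Scheme.ord (hyp_gf (hyp_gen hz) g) z) : Eff n c := fun z hz => by
  obtain ⟨U, hU, g, g0, e⟩ := h z
  obtain ⟨m, h1, h2⟩ := hyp_ord hU g0
  rw [h1, Int.cast_natCast] at e
  have := div_dm (h2.1 fun h => hz (by rw [e, h, Nat.cast_zero])).1
  exact ⟨by rw [height_eq, show dm z = n by omega], m, e⟩

theorem hyp_H [Fintype ι] (D : Prj W ι) (j₀ : ι) (h₀ : genericPoint W.left ∈ D.U j₀) :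
    ∃ H : Cyc W.left, ∀ z j (hj : z ∈ D.U j),
      H z = Scheme.ord (hyp_gf (hyp_gen hj) (D.s j₀ j)) z := by
  choose J hJ using D.cov
  choose c hc using fun j : {j // genericPoint W.left ∈ D.U j} =>
    Pool.Agent.Lib.MP_d3d358_ag.Mv.exists_div ((hyp_gf_ne j.2).2 (hyp_s_ne D j.2 h₀))
  obtain ⟨H, hH⟩ := cyc_of (fun z => c ⟨J z, hyp_gen (hJ z)⟩ z)
    ((finite_iUnion fun j => supp_fin (c j)).subset fun z hz =>
      mem_iUnion.2 ⟨⟨J z, hyp_gen (hJ z)⟩, hz⟩)
  refine ⟨H, fun z j hj => ?_⟩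
  rw [hH, hc]
  exact congrArg Int.cast (hyp_chart D j₀ h₀ (hJ z) hj)

omit [IsLocallyNoetherian W.left] in
theorem hyp_tb (D : Prj W ι) {j : ι} (h : genericPoint W.left ∈ D.U j) {m : ℕ}
    (hm : dm (genericPoint W.left) = m) :
    ∃ y : Fin m → ι, AlgebraicIndependent ℂ fun i => D.s (y i) j := by
  have : Nonempty (D.U j) := ⟨⟨_, h⟩⟩
  have : Algebra.IsAlgebraic (Algebra.adjoin ℂ (range fun i => D.s i j)) Γ(W.left, D.U j) :=
    ⟨fun a => isAlgebraic_algebraMap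
      (⟨a, (D.gen j).ge Algebra.mem_top⟩ : Algebra.adjoin ℂ (range fun i => D.s i j))⟩
  obtain ⟨t, ht, hb⟩ := exists_isTranscendenceBasis_subset (R := ℂ) (range fun i => D.s i j)
  have e := (dm_trdeg (D.aff j) h).1
  rw [((Ideal.quotientEquivAlgOfEq ℂ (div_pri_gen (D.aff j) h)).trans
    (AlgEquiv.quotientBot ℂ _)).trdeg_eq, hm] at e
  obtain ⟨q⟩ := Cardinal.mk_eq_nat_iff.1 (hb.cardinalMk_eq_trdeg.trans e)
  choose y hy using fun i : Fin m => ht (q.symm i).2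
  exact ⟨y, (funext hy : (fun i => D.s (y i) j) = Subtype.val ∘ q.symm) ▸
    hb.1.comp _ q.symm.injective⟩

omit [IsIntegral W.left] [IsLocallyNoetherian W.left] [Gd W] in
theorem exists_hyp [Gd W] [IsIntegral W.left] (h : HasPrj W) {η : W.left} (hη : ∀ w, η ⤳ w)
    {n : ℕ} (hn : dm η = n + 1) : ∃ H : Cyc W.left, Eff n H ∧
      ∀ (b d : ℕ) (p : Fin b → Pnt W), b < (Fintype.card (Fin (n + 2)) + d - 1).choose d →
        ∃ c : Cyc W.left, Eff n c ∧ (∀ k, ∀ u ∈ Hd W k, ev c u = d * ev H u) ∧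
          ∀ j, ∃ w, c w ≠ 0 ∧ w ⤳ (p j).pt := by
  have : IsLocallyNoetherian W.left := LocallyOfFiniteType.isLocallyNoetherian W.hom
  obtain rfl : η = genericPoint W.left := ((hη _).antisymm (div_gen η)).eq
  obtain ⟨ι, _, ⟨D⟩⟩ := h
  obtain ⟨j₀, h₀⟩ := D.cov (genericPoint W.left)
  obtain ⟨H, hH⟩ := hyp_H D j₀ h₀
  obtain ⟨y, hy⟩ := hyp_tb D h₀ hn
  refine ⟨H, hyp_eff hn fun z => ?_, fun b d p hb => ?_⟩
  · obtain ⟨j, hj⟩ := D.cov z
    exact ⟨_, hj, _, hyp_s_ne D (hyp_gen hj) h₀, hH z j hj⟩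
  obtain ⟨e, he⟩ : ∃ e : Fin (n + 2) → ι, e = Fin.cons j₀ y := ⟨_, rfl⟩
  choose J hJ using fun i => D.cov (p i).pt
  obtain ⟨G, hG, G0, hv⟩ := exists_form (ι := Fin b) (σ := Fin (n + 2))
    (fun i k => val (D.U (J i)) (D.s (e k) (J i)) (p i)) d (by rwa [Fintype.card_fin b])
  have f0 : hyp_gf h₀ (aeval (fun i => D.s (e i) j₀) G) ≠ 0 := (hyp_gf_ne h₀).2 (by
    have e1 : (fun i => D.s (e i) j₀) = Fin.cons 1 fun i => D.s (y i) j₀ := by
      funext i
      induction i using Fin.cases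
      · rw [he]; exact D.one j₀
      · rw [he]; rfl
    rw [e1]
    exact hyp_ne hy hG G0)
  obtain ⟨c, hc⟩ := Pool.Agent.Lib.MP_d3d358_ag.Mv.exists_div f0
  have t0 : ∀ {j z} (hj : z ∈ D.U j), hyp_gf (hyp_gen hj) (D.s j₀ j) ≠ 0 := fun hj =>
    (hyp_gf_ne _).2 (hyp_s_ne D (hyp_gen hj) h₀)
  have g0 : ∀ {j z} (_ : z ∈ D.U j), aeval (fun i => D.s (e i) j) G ≠ 0 := fun hj =>
    (hyp_gf_ne (hyp_gen hj)).1 (by
      rw [hyp_sec D e hG _ h₀]
      exact mul_ne_zero (pow_ne_zero _ (t0 hj)) f0)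
  have key : ∀ z j (hj : z ∈ D.U j), (d • H + c) z =
      Scheme.ord (hyp_gf (hyp_gen hj) (aeval (fun i => D.s (e i) j) G)) z := fun z j hj => by
    change d • H z + c z = _
    rw [hyp_sec D e hG _ h₀, Scheme.ord_mul (pow_ne_zero _ (t0 hj)) f0, hyp_pow (t0 hj), hc,
      hH z j hj, nsmul_eq_mul]
    push_cast
    rfl
  refine ⟨d • H + c, hyp_eff hn fun z => ?_, fun k u hu => ?_, fun i => ?_⟩
  · obtain ⟨j, hj⟩ := D.cov z
    exact ⟨_, hj, _, g0 hj, key z j hj⟩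
  · rw [ev_add, ev_nsmul, LinearMap.add_apply, div_ev f0 hc hu, add_zero]
    rfl
  · obtain ⟨w, hw, w1, w2, w3⟩ := hyp_krull (D.aff _) (hJ i) (g0 (hJ i)) (by
      rw [mem_basicOpen_iff, not_not, ← valA_apply _ (hJ i), ← Sp.hom_apply, ← AlgHom.comp_apply,
        MvPolynomial.comp_aeval]
      simp only [Sp.hom_apply, valA_apply]
      exact hv i)
    obtain ⟨m, h1, h2⟩ := hyp_ord hw (g0 hw)
    refine ⟨w, ?_, w3⟩
    rw [key w _ hw, h1, Int.cast_natCast]
    exact Nat.cast_ne_zero.2 (h2.2 ⟨w1, w2⟩)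

end Pool.Agent.Lib.MP_b7b517_ag.Sc
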