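import Pool.Agent.Lib.MP_b7b517_ag.Sc.Base
import Pool.Agent.Lib.MP_d3d358_ag.Mv.PX

/-! The projective line. -/

set_option autoImplicit false

namespace Pool.Agent.Lib.MP_b7b517_ag.Sc

open CategoryTheory AlgebraicGeometry Set Topology Filter
open Pool.Agent.Lib.MP_d3d358_ag.Cw Pool.Agent.Lib.MP_d3d358_ag.Mv
open Pool.Agent.Lib.MP_9ff3e7_ag.F
open MvPolynomial (X homogeneousSubmodule)

theorem line_sp {A : Type} [CommRing A] [Algebra ℂ A] {x : A}
    (h : Function.Bijective (Polynomial.aeval x : Polynomial ℂ →ₐ[ℂ] A)) (q : Sp A) :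
    At RgA univ q fun (p : Sp A) (_ : Fin 1) => p x := by
  let φ := AlgEquiv.ofBijective _ h
  obtain ⟨s, hs⟩ : ∃ s : (Fin 1 → ℂ) → Sp A, ∀ t a, s t a = Polynomial.aeval (t 0) (φ.symm a) :=
    ⟨fun t => (Polynomial.aeval (t 0)).comp φ.symm.toAlgHom, fun _ _ => rfl⟩
  have hd : ∀ a, ContDiff ℂ 1 fun t => s t a := fun a => by
    simp only [hs]
    exact (Polynomial.contDiff_aeval (φ.symm a) 1).comp (contDiff_apply ℂ ℂ (0 : Fin 1))
  have hc : Continuous s := Sp.cont_iff.2 fun a => (hd a).continuous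
  have li : ∀ p : Sp A, s (fun _ : Fin 1 => p x) = p := fun p => Sp.ext fun a => by
    obtain ⟨P, rfl⟩ := φ.surjective a
    refine (hs _ _).trans ?_
    rw [φ.symm_apply_apply]
    exact Polynomial.aeval_algHom_apply p x P
  refine ⟨univ, univ, s, ⟨isOpen_univ, isOpen_univ,
    (continuous_pi fun _ => Sp.cont_ev x).continuousOn, mapsTo_univ _ _, hc.continuousOn,
    fun _ _ => ⟨trivial, trivial⟩, fun p _ => li p, fun t _ => funext fun i => ?_⟩,
    ⟨trivial, trivial⟩, fun p _ => ⟨fun _ => rgA_ev p x, fun f ⟨a, b, hb, e⟩ => ?_⟩⟩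
  · have e : φ.symm x = Polynomial.X := φ.symm_apply_eq.2 (Polynomial.aeval_X x).symm
    rw [hs, e, Polynomial.aeval_X, Subsingleton.elim i 0]
  · have ht := hc.tendsto fun _ : Fin 1 => p x
    rw [li p] at ht
    exact ((hd a).contDiffAt.div (hd b).contDiffAt (by rwa [li p])).congr_of_eventuallyEq
      (ht.eventually e)

section
variable {W : Sch} {ι : Type} {U : ι → W.left.Opens} {x : ∀ i, Γ(W.left, U i)}

theorem line_sm (aff : ∀ i, IsAffineOpen (U i)) (cov : ∀ w, ∃ i, w ∈ U i)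
    (bij : ∀ i, Function.Bijective
      (Polynomial.aeval (x i) : Polynomial ℂ →ₐ[ℂ] Γ(W.left, U i))) : Smooth W.hom := by
  refine HasRingHomProperty.of_iSup_eq_top (P := @Smooth) (fun i => ⟨U i, aff i⟩)
    (top_unique fun w _ => TopologicalSpace.Opens.mem_iSup.2 (cov w)) fun i => ?_
  have : Algebra.Smooth ℂ (Polynomial ℂ) := ⟨inferInstance, inferInstance⟩
  have h := RingHom.Smooth.comp
    (.of_bijective (Scheme.ΓSpecIso (.of ℂ)).commRingCatIsoToRingEquiv.bijective)
    (RingHom.smooth_algebraMap.2 (Algebra.Smooth.of_equiv (AlgEquiv.ofBijective _ (bij i))))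
  have e := (Scheme.ΓSpecIso (.of ℂ)).hom_inv_id_assoc (W.hom.appLE ⊤ (U i) le_top)
  exact congrArg (fun φ => φ.hom.Smooth) e ▸ h

theorem line_at [Gd W] (aff : ∀ i, IsAffineOpen (U i)) (cov : ∀ w, ∃ i, w ∈ U i)
    (bij : ∀ i, Function.Bijective
      (Polynomial.aeval (x i) : Polynomial ℂ →ₐ[ℂ] Γ(W.left, U i))) (p : Pnt W) :
    ∃ y : Pnt W → Fin 1 → ℂ, At (Rg W) univ p y := by
  obtain ⟨i, hi⟩ := cov p.pt
  obtain ⟨e, he⟩ := exists_emb (aff i)
  refine ⟨fun p _ => val (U i) (x i) p, ?_⟩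
  rw [← he.valA p hi]
  refine At.emb (Rg' := RgA) he.opn.isEmbedding (isOpen_Kc (U i)) (by rw [inter_univ, he.rng]) ?_
    (Eventually.of_forall fun q _ => rg_val _ (he.mem q)) fun q f => (he.rg q f).1
  have e1 : (fun p (_ : Fin 1) => val (U i) (x i) p) ∘ e = fun q _ => q (x i) :=
    funext fun q => funext fun _ => he.val_eq q _
  rw [e1]
  exact line_sp (bij i) _

end

attribute [local instance] MvPolynomial.gradedAlgebra

theorem line_mem (j : Fin 2) : (X j : MvPolynomial (Fin 2) ℂ) ∈ homogeneousSubmodule (Fin 2) ℂ 1 :=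
  MvPolynomial.isHomogeneous_X ℂ j

theorem line_bij {j k : Fin 2} (hjk : ∀ i, i ≠ j ↔ i = k) : Function.Bijective
    (Polynomial.aeval (PX.sec (PX.dh (line_mem j) (X k))) : Polynomial ℂ →ₐ[ℂ]
      Γ((PX.PW (homogeneousSubmodule (Fin 2) ℂ)).left,
        PX.UU (homogeneousSubmodule (Fin 2) ℂ) (X j))) := by
  have kj : k ≠ j := (hjk k).2 rfl
  refine ⟨(injective_iff_map_eq_zero _).2 fun P hP => Polynomial.funext fun t => ?_, fun a => ?_⟩
  · let p : MvPolynomial (Fin 2) ℂ →ₐ[ℂ] ℂ := MvPolynomial.aeval fun i => if i = j then 1 else t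
    have p1 : p (X j) = 1 := by simp [p]
    have h : p (X j) ≠ 0 := p1 ▸ one_ne_zero
    have hp := (PX.th_mem_iff (line_mem j) one_pos p h (line_mem j) one_pos).2 h
    have e : valA _ hp (PX.sec (PX.dh (line_mem j) (X k))) = t := by
      rw [valA_apply, PX.val_th, PX.dh_eq _ (line_mem k), PX.evA_mk, p1]
      simp [p, kj]
    have e2 := Polynomial.aeval_algHom_apply (valA _ hp) (PX.sec (PX.dh (line_mem j) (X k))) P
    rw [e, hP, map_zero] at e2
    rw [Polynomial.eval_zero, ← e2]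
    rfl
  · obtain ⟨ρ, r1, r2⟩ := px_hom (line_mem j)
    obtain ⟨F, rfl⟩ := r1 a
    refine ⟨MvPolynomial.aeval (fun i => if i = j then 1 else Polynomial.X) F, ?_⟩
    rw [← AlgHom.comp_apply]
    congr 1
    refine MvPolynomial.algHom_ext fun i => ?_
    rw [AlgHom.comp_apply, MvPolynomial.aeval_X, r2]
    by_cases hi : i = j
    · rw [if_pos hi, map_one, hi]
      refine (Eq.trans (congrArg PX.sec ((PX.dh_eq _ (line_mem j)).trans ?_))
        (map_one (Proj.awayToSection (homogeneousSubmodule (Fin 2) ℂ) (X j)).hom)).symm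
      exact HomogeneousLocalization.val_injective _ (by simp [HomogeneousLocalization.Away.val_mk])
    · rw [if_neg hi, Polynomial.aeval_X, (hjk i).1 hi]

theorem line_gen : Gen1 (homogeneousSubmodule (Fin 2) ℂ) := by
  classical
  refine ⟨Finset.univ.image X, fun a ha => ?_, ?_⟩
  · obtain ⟨j, -, rfl⟩ := Finset.mem_image.1 ha
    exact line_mem j
  · rw [Finset.coe_image, Finset.coe_univ, image_univ]
    exact MvPolynomial.adjoin_range_X

theorem exists_ln : Nonempty (Ln P1) := by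
  have gd : Gd (PX.PW (homogeneousSubmodule (Fin 2) ℂ)) := gd_proj line_gen
  have int : IsIntegral (PX.PW (homogeneousSubmodule (Fin 2) ℂ)).left :=
    PX.integral ⟨MvPolynomial.aeval fun _ => 1, X 0, line_mem 0, by simp⟩
  have aff := fun j : Fin 2 => PX.aff_UU (line_mem j) one_pos
  have cov : ∀ w, ∃ j : Fin 2, w ∈ PX.UU (homogeneousSubmodule (Fin 2) ℂ) (X j) := fun w =>
    TopologicalSpace.Opens.mem_iSup.1 ((Proj.iSup_basicOpen_eq_top'
      (homogeneousSubmodule (Fin 2) ℂ) X (fun j => ⟨1, line_mem j⟩)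
      (PX.adjoin_zero MvPolynomial.adjoin_range_X)).ge (mem_univ w))
  have bij := fun j : Fin 2 => line_bij (j := j) (k := j + 1) (by revert j; decide)
  have sm := line_sm aff cov bij
  have ct := line_at aff cov bij
  exact ⟨⟨⟨gd, int, sm, hasPrj_proj line_gen⟩, ⟨int, one_pos, ct⟩, _, aff 0, _, bij 0⟩⟩

end Pool.Agent.Lib.MP_b7b517_ag.Sc
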