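import Pool.Agent.Lib.MP_b7b517_ag.Sc.Up
import Pool.Agent.Lib.MP_b7b517_ag.Sc.Hyp
import Pool.Agent.Lib.MP_b7b517_ag.Sc.Line

/-! The mobility count of the product of two hyperplane sections. -/

set_option autoImplicit false

namespace Pool.Agent.Lib.MP_b7b517_ag.Sc

open CategoryTheory AlgebraicGeometry MonoidalCategory CartesianMonoidalCategory Set Filter
open Pool.Agent.Lib.MP_d3d358_ag.Cw Pool.Agent.Lib.MP_d3d358_ag.Mv Pool.Agent.Lib.MP_d3d358_ag.AS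
open scoped ENNReal

theorem Ln.main {P : Sch} (L : Ln P) : ∃ α : Cyc (Pw P).left, Eff 3 α ∧ IsGreatest {r : ℝ |
    0 < limsup (fun m : ℕ => mc (Pw P) 3 (m • α) / (m : ℝ≥0∞) ^ r) atTop} (6 / 5) := by
  have := L.ok.gd
  have := L.n2.ok.int
  have := L.n3.ok.int
  obtain ⟨ω, h1, h2, h3⟩ := exists_om L.mf
  have h : Om ω := ⟨h1, h2, h3⟩
  obtain ⟨η, hη⟩ := pul_gen (P ⊗ P)
  obtain ⟨η', hη'⟩ := pul_gen (P ⊗ P ⊗ P)
  obtain ⟨A, eA, hA⟩ := exists_hyp L.n2.ok.prj hη (n := 1) (L.n2.mf.dm hη)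
  obtain ⟨B, eB, hB⟩ := exists_hyp L.n3.ok.prj hη' (n := 2) (L.n3.mf.dm hη')
  obtain ⟨α, eα, hα, -⟩ := box_cyc (sq_prod (P ⊗ P) (P ⊗ P ⊗ P)) eA eB
  obtain ⟨K, hK⟩ := exists_nat_ge (ev α (cS ω))
  refine ⟨α, eα, growth65 _ (8 * K * (K : ℝ) ^ (1 / 5 : ℝ)) (fun m => ?_) fun t ht => ?_⟩
  · refine iSup₂_le fun b hb => ?_
    rw [← ENNReal.ofReal_natCast]
    refine ENNReal.ofReal_le_ofReal ((L.upper h (M := m * K) ?_ (fun j => ?_) ?_ hb).trans_eq ?_)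
    · rw [ev_nsmul, LinearMap.smul_apply, cB, ← bx_one_left, bx, hα 0 6 _ one_mem_Hk _ h.m3,
        eA.ev_zero (j := 0) (by norm_num) one_mem_Hk, zero_mul, smul_zero]
    · rw [ev_nsmul, LinearMap.smul_apply, cC_eq, bx, hα 4 2 _ h.m2 _ (pb_mem _ h.mem),
        eA.ev_zero (j := 4) (by norm_num) h.m2, zero_mul, smul_zero]
    · rw [ev_nsmul, LinearMap.smul_apply, smul_eq_mul, Nat.cast_mul]
      exact mul_le_mul_of_nonneg_left hK (Nat.cast_nonneg m)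
    · rw [Nat.cast_mul, Real.mul_rpow (Nat.cast_nonneg m) (Nat.cast_nonneg K)]
      ring
  · refine le_iSup₂_of_le (t ^ 6) ⟨⊤, dense_univ, fun p _ => ?_⟩ le_rfl
    obtain ⟨a, a1, a2, a3⟩ := hA _ _ (fun j => Pnt.map (pj (Pw P) j ≫ fst _ _) p) (lt_choose3 ht)
    obtain ⟨b, b1, b2, b3⟩ := hB _ _ (fun j => Pnt.map (pj (Pw P) j ≫ snd _ _) p) (lt_choose4 ht)
    obtain ⟨c, c1, c2, c3⟩ := box_cyc (sq_prod (P ⊗ P) (P ⊗ P ⊗ P)) a1 b1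
    refine ⟨c, c1, numEq_of_ev L.n5.mf (box_ext (sq_prod (P ⊗ P) (P ⊗ P ⊗ P))
      fun i j x hx y hy => ?_), fun j => ?_⟩
    · rw [c2 i j x hx y hy, a2 i x hx, b2 j y hy, ev_nsmul, LinearMap.smul_apply,
        hα i j x hx y hy, smul_eq_mul]
      push_cast
      ring
    · obtain ⟨w, w1, w2⟩ := a3 j
      obtain ⟨w', w3, w4⟩ := b3 j
      exact c3 _ w w' w1 w3 w2 w4

theorem main : ∃ α : Cyc X5.left, Eff 3 α ∧ IsGreatest {r : ℝ |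
    0 < limsup (fun m : ℕ => mc X5 3 (m • α) / (m : ℝ≥0∞) ^ r) atTop} (6 / 5) :=
  exists_ln.elim Ln.main

end Pool.Agent.Lib.MP_b7b517_ag.Sc
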