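import Pool.Agent.Lib.MP_b7b517_ag.Sc.Base

/-! Numerical equivalence and cycle classes. -/

set_option autoImplicit false

namespace Pool.Agent.Lib.MP_b7b517_ag.Sc

open CategoryTheory AlgebraicGeometry Set Order
open Pool.Agent.Lib.MP_d3d358_ag.Cw Pool.Agent.Lib.MP_d3d358_ag.Mv Pool.Agent.Lib.MP_d3d358_ag.AS

variable {V W F : Sch} {n : ℕ}

theorem phi_one [Gd W] {w : W.left} (h : dm w = 0) : Phi w 1 = 1 := by
  have hf := fund w
  rw [h] at hf
  obtain ⟨p, y, hy⟩ := pul_chart hf (pul_nonempty w)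
  have hp : p ∈ Kw w := by
    obtain ⟨U, O, s, -, hp, -⟩ := hy
    exact hp.2
  have key : ∀ q ∈ Kw w, Pnt.pt q = w := fun q hq => by_contra fun e => by
    have := dm_lt (w := w) (w' := q.pt) hq (Ne.symm e)
    omega
  have e : Kw w \ {p} = ∅ := sdiff_eq_empty.2 fun q hq =>
    Pnt.pt_inj ((key q hq).trans (key p hp).symm)
  change phi w (res (subset_univ (Kw w)) 1) = 1
  rw [map_one]
  refine hf.val p y 1 hy ⟨1, (MP_d3d358_ag.AS.Zs ℚ _).one_mem, rfl, e ▸ N_empty _, univ, Filter.univ_mem, ?_⟩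
  have : jc (fun z => y z - y p) = 1 := by simp [jc]
  rw [this, sub_self]
  exact zero_mem _

theorem deg_eq [Gd W] (z : Cyc W.left) : deg z = ev z 1 := by
  rw [ev_apply]
  refine finsum_congr fun w => ?_
  by_cases h : dm w = 0
  · rw [if_pos (by rw [height_eq, h]; rfl), phi_one h, mul_one]
  · rw [if_neg (by rw [height_eq]; exact_mod_cast h), Phi_deg w (k := 0) (by omega) one_mem_Hk,
      mul_zero]

theorem cap_deg [Gd W] (h : Mf W n) {a a' c z : Cyc W.left} {α γ : HW W} (ha : Rep a α)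
    (hc : Rep c γ) (r : Rat a a') (k : Cap a' c z) : deg z = tp W (α * γ) := by
  rw [deg_eq, (cls_cap h k ((Rep.rat r).1 ha) hc).2 0 1 one_mem_Hk, mul_one]

theorem numEq_of_ev [Gd W] (h : Mf W n) {a b : Cyc W.left}
    (e : ∀ k, ∀ u ∈ Hd W k, ev a u = ev b u) : NumEq a b := by
  intro c a' b' z z' ra rb ca cb
  obtain ⟨α, ha⟩ := exists_rep h a
  obtain ⟨γ, hc⟩ := exists_rep h c
  have hb : Rep b α := ⟨ha.1, fun k u hu => (e k u hu).symm.trans (ha.2 k u hu)⟩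
  rw [cap_deg h ha hc ra ca, cap_deg h hb hc rb cb]

theorem NumEq.ev (ok : Ok W) (h : Mf W n) {a b : Cyc W.left} (e : NumEq a b) {γ : HW W}
    (hγ : Alg W γ) {k : ℤ} (hk : γ ∈ Hd W k) : ev a γ = ev b γ := by
  have := ok.gd
  obtain ⟨c, hc⟩ := hγ
  obtain ⟨α, ha⟩ := exists_rep h a
  obtain ⟨β, hb⟩ := exists_rep h b
  obtain ⟨a', z, ra, ca⟩ := ok.mov a c
  obtain ⟨b', z', rb, cb⟩ := ok.mov b c
  rw [ha.2 k γ hk, hb.2 k γ hk, ← cap_deg h ha hc ra ca, ← cap_deg h hb hc rb cb]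
  exact e c a' b' z z' ra rb ca cb

theorem Alg.mul (ok : Ok W) (h : Mf W n) {α β : HW W} (ha : Alg W α) (hb : Alg W β) :
    Alg W (α * β) := by
  have := ok.gd
  obtain ⟨a, ha⟩ := ha
  obtain ⟨b, hb⟩ := hb
  obtain ⟨a', z, ra, ca⟩ := ok.mov a b
  exact ⟨z, cls_cap h ca ((Rep.rat ra).1 ha) hb⟩

theorem Alg.add [Gd W] {α β : HW W} (ha : Alg W α) (hb : Alg W β) : Alg W (α + β) := by
  obtain ⟨a, ha⟩ := ha
  obtain ⟨b, hb⟩ := hb
  exact ⟨a + b, add_mem ha.1 hb.1, fun k u hu => by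
    rw [ev_add, LinearMap.add_apply, ha.2 k u hu, hb.2 k u hu, add_mul, map_add]⟩

theorem Alg.pb {f : V ⟶ W} {g : V ⟶ F} (h : Sq f g) [Gd V] [Gd W] [Gd F] [IsIntegral W.left]
    [IsIntegral F.left] {α : HW W} (ha : Alg W α) : Alg V (pb f α) := by
  classical
  obtain ⟨a, ha⟩ := ha
  choose σ hσ _ using h.generic
  obtain ⟨b, hb⟩ := cyc_of (fun v : V.left => if v = σ (f.left v) then a (f.left v) else 0)
    (((supp_fin a).image σ).subset fun v hv => by
      by_cases e : v = σ (f.left v)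
      · exact ⟨f.left v, fun z => hv (by simp only [if_pos e, z]), e.symm⟩
      · exact absurd (if_neg e) hv)
  refine ⟨b, ha.pull h fun v => ⟨fun m => ?_, fun ⟨v', m1, m2, m3⟩ => ?_⟩⟩
  · rw [hb, if_pos ((hσ _ v).1 ⟨rfl, m⟩)]
  · rw [hb, if_neg fun e => m3 (((hσ _ v).2 e).2 v' m1 m2)]

theorem exists_om [Gd W] (h : Mf W n) : ∃ ω ∈ Hd W (2 * n), Alg W ω ∧ tp W ω = 1 := by
  classical
  have := h.int
  obtain ⟨η, -⟩ := pul_gen W
  obtain ⟨p, -⟩ := pul_nonempty η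
  have h0 : height p.pt = 0 := height_eq_zero.2 fun x hx =>
    (Specializes.mem_closed hx p.pt_closed rfl).symm.le
  obtain ⟨c, hc⟩ := cyc_of (fun w : W.left => if w = p.pt then 1 else 0)
    ((finite_singleton p.pt).subset fun w hw => by_contra fun e => hw (if_neg e))
  obtain ⟨ω, h1, h2⟩ := exists_rep_deg h (c := c) (d := 0) fun w hw => by
    obtain rfl : w = p.pt := by_contra fun e => hw ((hc w).trans (if_neg e))
    exact h0
  refine ⟨ω, by simpa using h1, ⟨c, h2⟩, ?_⟩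
  rw [← mul_one ω, ← h2.2 0 1 one_mem_Hk, ← deg_eq, deg, finsum_eq_single _ p.pt, if_pos h0, hc,
    if_pos rfl]
  intro w hw
  rw [hc, if_neg hw, ite_self]

/-- the degree of a subvariety over `W` -/
theorem phi_pb [Gd V] [Gd W] (h : Mf W n) {η : W.left} (hη : ∀ w, η ⤳ w) {ω : HW W}
    (hω : ω ∈ Hd W (2 * n)) (h1 : tp W ω = 1) (f : V ⟶ W) (v : V.left) : ∃ t : ℕ,
      Phi v (pb f ω) = t ∧ (dm v = n → f.left v = η → t = f.left.residueDegree v) := by
  rw [push_phi f v hω]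
  by_cases e : f.left v = η
  · refine ⟨AlgebraicCycle.mapCoeff f.left height height v, ?_, fun d _ => ?_⟩
    · rw [e, ← tp_eq hη, h1, mul_one]
    · rw [AlgebraicCycle.mapCoeff, if_pos]
      rw [e, height_eq, height_eq, d, h.dm hη]
  · refine ⟨0, ?_, fun _ e' => absurd e' e⟩
    have := dm_lt (hη (f.left v)) (Ne.symm e)
    rw [h.dm hη] at this
    rw [Phi_deg _ (by omega) hω, mul_zero, Nat.cast_zero]

end Pool.Agent.Lib.MP_b7b517_ag.Sc
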