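import Pool.Agent.Lib.MP_b7b517_ag.Sc.Fac
import Pool.Agent.Lib.MP_b7b517_ag.Sc.Box

/-! The test classes on the fifth power of the line. -/

set_option autoImplicit false

namespace Pool.Agent.Lib.MP_b7b517_ag.Sc

open CategoryTheory AlgebraicGeometry MonoidalCategory CartesianMonoidalCategory Set Order
  MvPolynomial
open Pool.Agent.Lib.MP_d3d358_ag.Cw Pool.Agent.Lib.MP_d3d358_ag.Mv Pool.Agent.Lib.MP_d3d358_ag.AS

noncomputable section

variable (P : Sch)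

/-- the projections of the square -/
def p2 : Fin 2 → (P ⊗ P ⟶ P) := ![fst P P, snd P P]

/-- the projections of the cube -/
def p3 : Fin 3 → (P ⊗ P ⊗ P ⟶ P) := ![fst _ _, snd _ _ ≫ fst P P, snd _ _ ≫ snd P P]

/-- the projections of the other cube -/
def p3' : Fin 3 → ((P ⊗ P) ⊗ P ⟶ P) := ![fst _ _ ≫ fst P P, fst _ _ ≫ snd P P, snd _ _]

/-- the fifth power -/
abbrev Pw : Sch := (P ⊗ P) ⊗ P ⊗ P ⊗ P

/-- its projections -/
def pr : Fin 2 ⊕ Fin 3 → (Pw P ⟶ P) :=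
  Sum.elim (fun i => fst _ _ ≫ p2 P i) fun j => snd _ _ ≫ p3 P j

/-- forget one factor of the square -/
def q2 (i : Fin 2) : P ⊗ P ⟶ P := p2 P (i.succAbove 0)

/-- forget one factor of the cube -/
def q3 (i : Fin 3) : P ⊗ P ⊗ P ⟶ P ⊗ P := lift (p3 P (i.succAbove 0)) (p3 P (i.succAbove 1))

/-- keep the square and one more factor -/
def r3 (j : Fin 3) : Pw P ⟶ (P ⊗ P) ⊗ P := lift (fst _ _) (snd _ _ ≫ p3 P j)

variable {P}

/-- the exterior product of two classes -/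
def bx {W F : Sch} (x : HW W) (y : HW F) : HW (W ⊗ F) := pb (fst W F) x * pb (snd W F) y

theorem bx_mem {W F : Sch} {i j : ℤ} {x : HW W} {y : HW F} (hx : x ∈ Hd W i) (hy : y ∈ Hd F j)
    {k : ℤ} (e : k = i + j) : bx x y ∈ Hd (W ⊗ F) k :=
  e ▸ mul_mem_Hk (pb_mem _ hx) (pb_mem _ hy)

theorem pb_bx {V W F : Sch} (f : V ⟶ W) (g : V ⟶ F) (x : HW W) (y : HW F) :
    pb (lift f g) (bx x y) = pb f x * pb g y := by
  rw [bx, map_mul, pb_pb, pb_pb, lift_fst, lift_snd]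

/-- smooth projective of dimension `n` -/
structure Nice (W : Sch) (n : ℕ) : Prop where
  ok : Ok W
  mf : Mf W n

theorem Nice.tensor {W F : Sch} {n m : ℕ} (h : Nice W n) (h' : Nice F m) : Nice (W ⊗ F) (n + m) :=
  have := h.ok.gd
  have := h'.ok.gd
  ⟨h.ok.tensor h'.ok, (sq_prod W F).mf h.mf h'.mf⟩

theorem Nice.alg {W F : Sch} {n m : ℕ} (h : Nice W n) (h' : Nice F m) {x : HW W} {y : HW F}
    (hx : Alg W x) (hy : Alg F y) : Alg (W ⊗ F) (bx x y) :=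
  have := h.ok.gd
  have := h'.ok.gd
  have := h.ok.int
  have := h'.ok.int
  Alg.mul (h.tensor h').ok (h.tensor h').mf (hx.pb (sq_prod W F)) (hy.pb (sq_prod W F).symm)

theorem Nice.tp {W F : Sch} {n m : ℕ} (h : Nice W n) (h' : Nice F m) {x : HW W} {y : HW F}
    {i j : ℤ} (hx : x ∈ Hd W i) (hy : y ∈ Hd F j) (ex : tp W x = 1) (ey : tp F y = 1) :
    tp (W ⊗ F) (bx x y) = 1 := by
  have := h.ok.gd
  have := h'.ok.gd
  have := h.ok.int
  have := h'.ok.int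
  rw [bx, (sq_prod W F).tp hx hy, ex, ey, one_mul]

theorem alg_one {W : Sch} {n : ℕ} (h : Nice W n) : Alg W 1 := by
  classical
  have := h.ok.gd
  have := h.ok.int
  obtain ⟨η, hη⟩ := pul_gen W
  obtain ⟨c, hc⟩ := cyc_of (fun w : W.left => if w = η then 1 else 0)
    ((finite_singleton η).subset fun w hw => by_contra fun e => hw (if_neg e))
  refine ⟨c, cls_evn (k := 0) one_mem_Hk, fun k u _ => ?_⟩
  rw [one_mul, ev_apply, finsum_eq_single _ η, hc, if_pos rfl, one_mul, tp_eq hη]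
  intro w hw
  rw [hc, if_neg hw, zero_mul]

theorem bx_one_left {W F : Sch} (y : HW F) : bx (1 : HW W) y = pb (snd W F) y := by
  rw [bx, map_one, one_mul]

theorem bx_one_right {W F : Sch} (x : HW W) : bx x (1 : HW F) = pb (fst W F) x := by
  rw [bx, map_one, mul_one]

variable (L : Ln P)

include L

theorem Ln.n1 : Nice P 1 := ⟨L.ok, L.mf⟩

theorem Ln.n2 : Nice (P ⊗ P) 2 := L.n1.tensor L.n1

theorem Ln.n3 : Nice (P ⊗ P ⊗ P) 3 := L.n1.tensor L.n2

theorem Ln.n3' : Nice ((P ⊗ P) ⊗ P) 3 := L.n2.tensor L.n1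

theorem Ln.n5 : Nice (Pw P) 5 := L.n2.tensor L.n3

theorem Ln.g2 : L.Gen (p2 P) :=
  gen_of_range L (gen_sq L (sq_prod P P) (gen_id L) (gen_id L)) (by
    rintro _ ⟨i | i, rfl⟩
    · exact ⟨0, (Category.comp_id _).symm⟩
    · exact ⟨1, (Category.comp_id _).symm⟩)

theorem Ln.g3 : L.Gen (p3 P) :=
  gen_of_range L (gen_sq L (sq_prod P (P ⊗ P)) (gen_id L) L.g2) (by
    rintro _ ⟨i | i, rfl⟩
    · exact ⟨0, (Category.comp_id _).symm⟩
    · fin_cases i
      · exact ⟨1, rfl⟩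
      · exact ⟨2, rfl⟩)

theorem Ln.g5 : L.Gen (pr P) := gen_sq L (sq_prod _ _) L.g2 L.g3

variable {ω : HW P}

theorem Ln.a2 (h : Alg P ω) (i : Fin 2) : Alg (P ⊗ P) (pb (p2 P i) ω) := by
  fin_cases i
  · exact bx_one_right (F := P) ω ▸ L.n1.alg L.n1 h (alg_one L.n1)
  · exact bx_one_left (W := P) ω ▸ L.n1.alg L.n1 (alg_one L.n1) h

theorem Ln.a3 (h : Alg P ω) (i : Fin 3) : Alg (P ⊗ P ⊗ P) (pb (p3 P i) ω) := by
  have key : ∀ j, Alg (P ⊗ P ⊗ P) (pb (snd _ _ ≫ p2 P j) ω) := fun j => by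
    rw [← pb_pb, ← bx_one_left]
    exact L.n1.alg L.n2 (alg_one L.n1) (L.a2 h j)
  fin_cases i
  · exact bx_one_right (F := P ⊗ P) ω ▸ L.n1.alg L.n2 h (alg_one L.n2)
  · exact key 0
  · exact key 1

omit L in
theorem pr_lift (T : Sch) (φ : Fin 2 ⊕ Fin 3 → (T ⟶ P)) : ∃! m : T ⟶ Pw P, ∀ t, m ≫ pr P t = φ t := by
  refine ⟨lift (lift (φ (.inl 0)) (φ (.inl 1)))
    (lift (φ (.inr 0)) (lift (φ (.inr 1)) (φ (.inr 2)))), ?_, fun m h => ?_⟩
  · rintro (i | i) <;> fin_cases i <;> simp [pr, p2, p3]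
  · have h1 := h (.inl 0)
    have h2 := h (.inl 1)
    have h3 := h (.inr 0)
    have h4 := h (.inr 1)
    have h5 := h (.inr 2)
    refine CartesianMonoidalCategory.hom_ext _ _ (CartesianMonoidalCategory.hom_ext _ _ ?_ ?_)
      (CartesianMonoidalCategory.hom_ext _ _ ?_ (CartesianMonoidalCategory.hom_ext _ _ ?_ ?_))
    · simpa [pr, p2] using h1
    · simpa [pr, p2] using h2
    · simpa [pr, p3] using h3
    · simpa [pr, p3] using h4
    · simpa [pr, p3] using h5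

end

end Pool.Agent.Lib.MP_b7b517_ag.Sc
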