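import Pool.Agent.Lib.MP_b7b517_ag.Sc.Pw
import Pool.Agent.Lib.MP_b7b517_ag.Sc.Gen
import Pool.Agent.Lib.MP_b7b517_ag.Sc.Cnt

/-! The upper bound for the mobility count. -/

set_option autoImplicit false

namespace Pool.Agent.Lib.MP_b7b517_ag.Sc

open CategoryTheory Limits AlgebraicGeometry MonoidalCategory CartesianMonoidalCategory Set Order
  MvPolynomial Filter
open Pool.Agent.Lib.MP_d3d358_ag.Cw Pool.Agent.Lib.MP_d3d358_ag.Mv Pool.Agent.Lib.MP_d3d358_ag.AS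

noncomputable section

variable {P : Sch}

/-- the class of a point of the line -/
structure Om (ω : HW P) : Prop where
  mem : ω ∈ Hd P 2
  alg : Alg P ω
  one : tp P ω = 1

/-- the class `(h₀ + h₁) (h₂ h₃ + h₂ h₄ + h₃ h₄)` -/
def cS (ω : HW P) : HW (Pw P) := bx (∑ i, pb (q2 P i) ω) (∑ j, pb (q3 P j) (bx ω ω))

/-- the class `h₂ h₃ h₄` -/
def cB (ω : HW P) : HW (Pw P) := pb (snd _ _) (bx ω (bx ω ω))

/-- the classes `h₀ h₁ hⱼ` -/
def cC (ω : HW P) (j : Fin 3) : HW (Pw P) := pb (r3 P j) (bx (bx ω ω) ω)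

variable {ω : HW P}

theorem Om.m2 (h : Om ω) : bx ω ω ∈ Hd (P ⊗ P) 4 := bx_mem h.mem h.mem rfl

theorem Om.m3 (h : Om ω) : bx ω (bx ω ω) ∈ Hd (P ⊗ P ⊗ P) 6 := bx_mem h.mem h.m2 rfl

theorem Om.m3' (h : Om ω) : bx (bx ω ω) ω ∈ Hd ((P ⊗ P) ⊗ P) 6 := bx_mem h.m2 h.mem rfl

theorem Om.mF (h : Om ω) : ∑ i, pb (q2 P i) ω ∈ Hd (P ⊗ P) 2 :=
  Submodule.sum_mem _ fun _ _ => pb_mem _ h.mem

theorem Om.mW (h : Om ω) : ∑ j, pb (q3 P j) (bx ω ω) ∈ Hd (P ⊗ P ⊗ P) 4 :=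
  Submodule.sum_mem _ fun _ _ => pb_mem _ h.m2

theorem cC_eq (j : Fin 3) : cC ω j = bx (bx ω ω) (pb (p3 P j) ω) := by
  rw [cC, r3, pb_bx, ← pb_pb]
  rfl

theorem cS_eq : cS ω = ∑ i, ∑ j,
    pb (lift (fst _ _ ≫ q2 P i) (snd _ _ ≫ q3 P j)) (bx ω (bx ω ω)) := by
  rw [cS, bx, map_sum, map_sum, cls_sum_mul]
  refine Finset.sum_congr rfl fun i _ => ?_
  rw [cls_mul_sum]
  refine Finset.sum_congr rfl fun j _ => ?_
  rw [pb_bx, pb_pb, pb_pb]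

theorem alg_sum {W : Sch} [Gd W] {n : ℕ} {f : Fin (n + 1) → HW W} (h : ∀ i, Alg W (f i)) :
    Alg W (∑ i, f i) := by
  induction n with
  | zero => simpa using h 0
  | succ n ih =>
    rw [Fin.sum_univ_succ]
    exact (h 0).add (ih fun i => h i.succ)

variable (L : Ln P) (h : Om ω)

include L h

theorem Ln.t2 : tp _ (bx ω ω) = 1 := L.n1.tp L.n1 h.mem h.mem h.one h.one

theorem Ln.t3 : tp _ (bx ω (bx ω ω)) = 1 := L.n1.tp L.n2 h.mem h.m2 h.one (L.t2 h)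

theorem Ln.t3' : tp _ (bx (bx ω ω) ω) = 1 := L.n2.tp L.n1 h.m2 h.mem (L.t2 h) h.one

theorem Ln.aS : Alg _ (cS ω) := by
  have := L.ok.gd
  refine L.n2.alg L.n3 (alg_sum fun i => L.a2 h.alg _) (alg_sum fun j => ?_)
  rw [q3, pb_bx]
  exact Alg.mul L.n3.ok L.n3.mf (L.a3 h.alg _) (L.a3 h.alg _)

theorem Ln.aB : Alg _ (cB ω) := by
  rw [cB, ← bx_one_left]
  exact L.n2.alg L.n3 (alg_one L.n2) (L.n1.alg L.n2 h.alg (L.n1.alg L.n1 h.alg h.alg))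

theorem Ln.aC (j : Fin 3) : Alg _ (cC ω j) := by
  rw [cC_eq]
  exact L.n2.alg L.n3 (L.n1.alg L.n1 h.alg h.alg) (L.a3 h.alg j)

theorem Ln.nat3 (f : Pw P ⟶ P ⊗ P ⊗ P) (w : (Pw P).left) :
    ∃ t : ℕ, Phi w (pb f (bx ω (bx ω ω))) = t := by
  have := L.ok.gd
  have := L.n3.ok.int
  obtain ⟨η, hη⟩ := pul_gen (P ⊗ P ⊗ P)
  exact (phi_pb L.n3.mf hη h.m3 (L.t3 h) f w).imp fun _ a => a.1

theorem Ln.natC (j : Fin 3) (w : (Pw P).left) : ∃ t : ℕ, Phi w (cC ω j) = t := by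
  have := L.ok.gd
  have := L.n3'.ok.int
  obtain ⟨η, hη⟩ := pul_gen ((P ⊗ P) ⊗ P)
  exact (phi_pb L.n3'.mf hη h.m3' (L.t3' h) _ w).imp fun _ a => a.1

theorem Ln.natS (w : (Pw P).left) : ∃ t : ℕ, Phi w (cS ω) = t := by
  choose t ht using fun f => L.nat3 h f w
  exact ⟨∑ i, ∑ j, t (lift (fst _ _ ≫ q2 P i) (snd _ _ ≫ q3 P j)),
    by simp only [cS_eq, map_sum, ht, Nat.cast_sum]⟩

theorem Ln.struct {w : (Pw P).left} (hw : dm w = 3) (c : ∀ t, (pr P t).left w ∈ L.U)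
    (hB : Phi w (cB ω) = 0) (hC : ∀ j, Phi w (cC ω j) = 0) :
    ∃ (A B : ℕ) (f : MvPolynomial (Fin 2) ℂ) (g : MvPolynomial (Fin 3) ℂ), 1 ≤ A ∧ 1 ≤ B ∧
      Phi w (cS ω) = (A * B : ℕ) ∧ f ≠ 0 ∧ g ≠ 0 ∧ (∀ i, degreeOf i f ≤ A) ∧
      (∀ i, degreeOf i g ≤ B) ∧ aeval (fun i => L.crd (pr P (.inl i)) w) f = 0 ∧
      aeval (fun i => L.crd (pr P (.inr i)) w) g = 0 := by
  have := L.ok.gd
  have d3 := ndom L L.n3.mf h.m3 (L.t3 h) L.g5 (snd _ _) (p3 P) hw c hB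
  have d2 : ¬AlgebraicIndependent ℂ fun i => L.crd (fst _ _ ≫ p2 P i) w := by
    refine dep_two _ (fun j => L.crd (snd _ _ ≫ p3 P j) w) ?_ (by rw [trdeg_Kp, hw]; rfl)
      fun j => ?_
    · convert L.g5 w c using 3
      funext t
      cases t <;> rfl
    · have e : (fun i => L.crd (r3 P j ≫ p3' P i) w) = ![L.crd (fst _ _ ≫ p2 P 0) w,
          L.crd (fst _ _ ≫ p2 P 1) w, L.crd (snd _ _ ≫ p3 P j) w] := by
        funext i
        fin_cases i <;> simp [r3, p3', p2]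
      exact e ▸ ndom L L.n3'.mf h.m3' (L.t3' h) L.g5 (r3 P j) (p3' P) hw c (hC j)
  have l2 := dm_le L L.g2 (fst _ _) (fun i => c (.inl i)) d2
  have l3 := dm_le L L.g3 (snd _ _) (fun i => c (.inr i)) d3
  obtain ⟨v, v1, -, -, v2, v3⟩ := box_pt (sq_prod (P ⊗ P) (P ⊗ P ⊗ P))
    ((fst _ _ : Pw P ⟶ _).left w) ((snd _ _ : Pw P ⟶ _).left w)
  obtain rfl : v = w := by_contra fun e => by
    have := dm_lt ((v1 w).2 ⟨specializes_rfl, specializes_rfl⟩) e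
    omega
  obtain ⟨A, f, a1, a2, a3, a4, a5⟩ := fac L L.mf h.mem h.one (ρ := fun _ => 𝟙 P) (q2 P)
    (fun i j => by rw [Category.comp_id, Subsingleton.elim j 0]; rfl) L.g2 (gen_id L)
    (y := (fst _ _ : Pw P ⟶ _).left v) (by omega) fun i => c (.inl i)
  obtain ⟨B, g, b1, b2, b3, b4, b5⟩ := fac L L.n2.mf h.m2 (L.t2 h) (q3 P)
    (fun i j => by fin_cases j <;> simp [q3, p2]) L.g3 L.g2
    (y := (snd _ _ : Pw P ⟶ _).left v) (by omega) fun i => c (.inr i)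
  refine ⟨A, B, f, g, a1, b1, ?_, a3, b3, a5, b5, ?_, ?_⟩
  · rw [cS, bx, v3 _ _ _ h.mF _ h.mW, a2, b2, Nat.cast_mul]
  · have := congrArg (rf (fst _ _ : Pw P ⟶ _) v) a4
    rw [map_zero, ← AlgHom.comp_apply, comp_aeval] at this
    simp only [← crd_comp] at this
    exact this
  · have := congrArg (rf (snd _ _ : Pw P ⟶ _) v) b4
    rw [map_zero, ← AlgHom.comp_apply, comp_aeval] at this
    simp only [← crd_comp] at this
    exact this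

omit L h in
theorem pw_lift (b : ℕ) (T : Sch) (φ : Fin b × (Fin 2 ⊕ Fin 3) → (T ⟶ P)) :
    ∃! m : T ⟶ pw (Pw P) b, ∀ t, m ≫ pj (Pw P) t.1 ≫ pr P t.2 = φ t := by
  choose l h1 h2 using fun j => pr_lift T fun s => φ (j, s)
  refine ⟨Pi.lift l, fun t => ?_, fun m hm => Pi.hom_ext _ _ fun j => ?_⟩
  · exact (Category.assoc _ _ _).symm.trans
      ((congrArg (· ≫ pr P t.2) (Pi.lift_π l t.1)).trans (h1 t.1 t.2))
  · rw [Pi.lift_π]
    exact h2 j _ fun s => (Category.assoc _ _ _).trans (hm (j, s))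

theorem Ln.upper {α : Cyc (Pw P).left} (hB : ev α (cB ω) = 0) (hC : ∀ j, ev α (cC ω j) = 0)
    {M : ℕ} (hM : ev α (cS ω) ≤ M) {b : ℕ} (H : Thru (Pw P) 3 α b) :
    (b : ℝ) ≤ 8 * M * (M : ℝ) ^ (1 / 5 : ℝ) := by
  classical
  have := L.ok.gd
  obtain ⟨O, hO, H⟩ := H
  obtain ⟨Q, Q0, hQ⟩ := exists_gen L (fun t : Fin b × (Fin 2 ⊕ Fin 3) => pj (Pw P) t.1 ≫ pr P t.2)
    (pw_lift b) O hO
  have g0 : ∀ᶠ v in gen (Fin b × (Fin 2 ⊕ Fin 3)), eval v Q ≠ 0 := ⟨Q, Q0, fun _ h => h⟩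
  have g2 : ∀ᶠ v in gen (Fin b × (Fin 2 ⊕ Fin 3)), ∀ (d : Fin (M + 1)) (T : Finset (Fin b)),
      ((d : ℕ) + 1) ^ Fintype.card (Fin 2) ≤ T.card → ∀ f : MvPolynomial (Fin 2) ℂ,
        (∀ i, degreeOf i f ≤ d) → (∀ j ∈ T, eval (fun i => v (j, Sum.inl i)) f = 0) → f = 0 :=
    eventually_all.2 fun d => eventually_all.2 fun T => eventually_imp_distrib_left.2 fun h =>
      gen_deg d T Sum.inl Sum.inl_injective h
  have g3 : ∀ᶠ v in gen (Fin b × (Fin 2 ⊕ Fin 3)), ∀ (d : Fin (M + 1)) (T : Finset (Fin b)),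
      ((d : ℕ) + 1) ^ Fintype.card (Fin 3) ≤ T.card → ∀ f : MvPolynomial (Fin 3) ℂ,
        (∀ i, degreeOf i f ≤ d) → (∀ j ∈ T, eval (fun i => v (j, Sum.inr i)) f = 0) → f = 0 :=
    eventually_all.2 fun d => eventually_all.2 fun T => eventually_imp_distrib_left.2 fun h =>
      gen_deg d T Sum.inr Sum.inr_injective h
  obtain ⟨v, h0, h2, h3⟩ := (g0.and (g2.and g3)).exists
  obtain ⟨p, pO, hp⟩ := hQ v h0
  obtain ⟨a, ea, na, la⟩ := H p pO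
  choose τ τ1 τ2 using la
  choose N hN using L.natS h
  let S := (supp_fin a).toFinset
  have hS : ∑ w ∈ S, N w ≤ M := by
    have := (ea.sum_le hN).trans
      ((na.ev L.n5.ok L.n5.mf (L.aS h) (bx_mem h.mF h.mW rfl)).trans_le hM)
    exact_mod_cast this
  have hb : b = ∑ w ∈ S, (Finset.univ.filter fun j => τ j = w).card := by
    rw [← Finset.card_eq_sum_card_fiberwise (s := Finset.univ) (f := τ) (t := S) fun j _ => by
      simpa [S] using τ1 j]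
    simp
  have key : ∀ w ∈ S, ((Finset.univ.filter fun j => τ j = w).card : ℝ) ≤
      8 * N w * (M : ℝ) ^ (1 / 5 : ℝ) := by
    intro w hw
    obtain e | ⟨j₀, e⟩ := (Finset.univ.filter fun j => τ j = w).eq_empty_or_nonempty
    · rw [e, Finset.card_empty, Nat.cast_zero]
      positivity
    obtain rfl : τ j₀ = w := by simpa using e
    have s0 : ∀ j, τ j ⤳ (p.map (pj (Pw P) j)).pt := τ2
    have s1 : ∀ j t, ((p.map (pj (Pw P) j)).map (pr P t)).pt ∈ L.U ∧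
        val L.U L.x ((p.map (pj (Pw P) j)).map (pr P t)) = v (j, t) := fun j t => by
      rw [← Pnt.map_comp]
      exact hp (j, t)
    obtain ⟨A, B, f, g, a1, b1, e1, f0, g0, df, dg, f1, g1⟩ := L.struct h (ea.dm (τ1 j₀))
      (fun t => ((s0 j₀).map (pr P t).left.continuous).mem_open L.U.isOpen (s1 j₀ t).1)
      (ea.phi_zero (L.nat3 h _)
        ((na.ev L.n5.ok L.n5.mf (L.aB h) (pb_mem _ h.m3)).trans hB) (τ1 j₀))
      fun j => ea.phi_zero (L.natC h j)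
        ((na.ev L.n5.ok L.n5.mf (L.aC h j) (pb_mem _ h.m3')).trans (hC j)) (τ1 j₀)
    have h6 : A * B ≤ N (τ j₀) := by
      rw [hN, Nat.cast_inj] at e1
      exact e1.ge
    have h7 : N (τ j₀) ≤ M :=
      (Finset.single_le_sum (f := N) (fun _ _ => Nat.zero_le _) hw).trans hS
    refine numeric' a1 b1 (not_le.1 fun h8 => f0 ?_) (not_le.1 fun h8 => g0 ?_) h6 h7
    · refine h2 ⟨A, by nlinarith⟩ _ h8 _ df fun j hj => ?_
      have e2 : τ j = τ j₀ := by simpa using hj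
      simpa only [(s1 j _).2] using crd_spec L (fun i => pr P (.inl i)) (e2 ▸ s0 j)
        (fun i => (s1 j _).1) f1
    · refine h3 ⟨B, by nlinarith⟩ _ h8 _ dg fun j hj => ?_
      have e2 : τ j = τ j₀ := by simpa using hj
      simpa only [(s1 j _).2] using crd_spec L (fun i => pr P (.inr i)) (e2 ▸ s0 j)
        (fun i => (s1 j _).1) g1
  calc (b : ℝ) = ∑ w ∈ S, ((Finset.univ.filter fun j => τ j = w).card : ℝ) := by exact_mod_cast hb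
    _ ≤ _ := Finset.sum_le_sum key
    _ ≤ _ := by
      rw [← Finset.sum_mul, ← Finset.mul_sum, ← Nat.cast_sum]
      gcongr

end

end Pool.Agent.Lib.MP_b7b517_ag.Sc
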